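import Pool.Agent.P.MP_0c87c4_co.ABasic

-- part Pool.Agent.P.MP_0c87c4_co.AConn
section

/-!
# Short rainbow paths in an expanding piece, and connectors
-/

set_option linter.unusedSectionVars false

namespace Pool.Agent.P.MP_0c87c4_co.Asym

open Finset

variable {V C : Type*} {π : C → Equiv.Perm V} [DecidableEq V] [DecidableEq C] [Fintype V]

lemma short_path (hL : ∀ x, Function.Injective fun c => π c x) (X Gd : Finset V) (R : Finset C)
    (hG : Gd ⊆ X) (K Λ a n₀ f g l : ℕ) (hΛ : 0 < Λ)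
    (hN : X.card ≤ K * R.card)
    (hdef : ∀ x ∈ Gd, deg π x R Gdᶜ ≤ a)
    (hexp : ∀ S ⊆ X, n₀ ≤ S.card → R.card * (X \ S).card ≤ Λ * ∑ u ∈ S, deg π u R (X \ S))
    (h1 : Λ * (f * (K + 1) + 2 + (3 * l + 7) * K + g) ≤ n₀)
    (h2 : K * R.card < g * l)
    (h3 : 2 * (a + 2 * f + 2) ≤ R.card)
    (h4 : 4 * (f * (K + 1) + 2 + (3 * l + 7) * K + n₀) ≤ R.card)
    (FV : Finset V) (FC : Finset C) (hFV : FV.card ≤ f) (hFC : FC.card ≤ f)
    (x : V) (hx : x ∈ Gd) (y : V) (hxy : x ≠ y)
    (hy : R.card ≤ 2 * deg (fun c => (π c).symm) y R X) :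
    ∃ cs, cs.length ≤ l + 3 ∧ Pth π x cs {v | (v ∈ X ∧ v ∉ FV) ∨ v = y} {c | c ∈ R ∧ c ∉ FC} ∧
      endp π x cs = y := by
  classical
  set r := R.card with hr
  set I := f * (K + 1) + 2 + (3 * l + 7) * K with hI
  have hr0 : 0 < r := by omega
  set Y : Set V := {v | v ∈ X ∧ v ∉ FV ∧ v ≠ y} with hY
  set RC : Set C := {c | c ∈ R ∧ c ∉ FC} with hRC
  set Z : ℕ → Finset V := fun i => X.filter fun w =>
    ∃ cs, cs.length ≤ i ∧ Pth π x cs Y RC ∧ endp π x cs = w with hZ
  set Z' : ℕ → Finset V := fun i => X.filter fun w =>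
    ∃ cs, cs.length ≤ i ∧ Pth π x cs Y RC ∧ endp π x cs = w ∧ ∀ c ∈ cs, π c w ≠ y with hZ'
  have hZ'Z : ∀ i, Z' i ⊆ Z i := by
    intro i w hw
    simp only [hZ, hZ', mem_filter] at hw ⊢
    obtain ⟨h, cs, h1, h2, h3, -⟩ := hw
    exact ⟨h, cs, h1, h2, h3⟩
  have hmono : ∀ i j, i ≤ j → Z' i ⊆ Z' j := by
    intro i j hij w hw
    simp only [hZ', mem_filter] at hw ⊢
    obtain ⟨h, cs, h1, h2, h3⟩ := hw
    exact ⟨h, cs, h1.trans hij, h2, h3⟩
  have hZX : ∀ i, Z i ⊆ X := fun i => filter_subset _ _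
  have hstep : ∀ i ≤ l + 2, ∀ S ⊆ Z i, ∑ u ∈ S, deg π u R (X \ Z' (i + 1)) ≤ I * r := by
    intro i hi S hS
    have hu : ∀ u ∈ S, deg π u R (X \ Z' (i + 1)) ≤ deg π u R (insert y FV) + (f + (3 * l + 7)) +
        deg (fun c => π c * π c) u R {y} := by
      intro u hu
      obtain ⟨-, q, hq1, hq2, hq3⟩ := mem_filter.1 (hS hu)
      have hsub : (R.filter fun c => π c u ∈ X \ Z' (i + 1)) ⊆
          (R.filter fun c => π c u ∈ insert y FV) ∪ (FC ∪ q.toFinset ∪
            (R.filter fun c => π c u ∈ (x :: tl π x q).toFinset) ∪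
            (R.filter fun c => π c u ∈ q.toFinset.image fun c' => (π c').symm y)) ∪
            R.filter fun c => (π c * π c) u ∈ ({y} : Finset V) := by
        intro c hc
        by_contra hno
        simp only [mem_union, mem_filter, not_or, not_and, mem_insert, List.mem_toFinset,
          List.mem_cons, mem_image, not_exists, mem_singleton, mem_sdiff,
          Equiv.Perm.coe_mul, Function.comp_apply] at hc hno
        obtain ⟨hcR, hcX, hcZ⟩ := hc
        obtain ⟨⟨n1, ⟨⟨n2, n3⟩, n4⟩, n5⟩, n6⟩ := hno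
        apply hcZ
        simp only [hZ', mem_filter]
        refine ⟨hcX, q ++ [c], by simp; omega, ?_, by rw [endp_snoc, hq3], ?_⟩
        · refine hq2.snoc ⟨hcR, n2⟩ n3 ?_ ?_ ?_
          · rw [hq3]; exact ⟨hcX, (n1 hcR).2, (n1 hcR).1⟩
          · rw [hq3]; exact (n4 hcR).2
          · rw [hq3]; exact (n4 hcR).1
        · intro c' hc' h
          rcases List.mem_append.1 hc' with h' | h'
          · exact n5 hcR c' h' (by rw [← h]; simp)
          · rw [List.mem_singleton] at h'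
            subst h'
            exact n6 hcR h
      have e1 : q.toFinset.card ≤ l + 2 := (List.toFinset_card_le _).trans (by omega)
      have e2 : (R.filter fun c => π c u ∈ (x :: tl π x q).toFinset).card ≤ l + 3 :=
        (deg_le_card hL u R _).trans ((List.toFinset_card_le _).trans (by simp; omega))
      have e3 : (R.filter fun c => π c u ∈ q.toFinset.image fun c' => (π c').symm y).card
          ≤ l + 2 := (deg_le_card hL u R _).trans (card_image_le.trans e1)
      refine (card_le_card hsub).trans ((card_union_le _ _).trans ?_)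
      refine add_le_add ((card_union_le _ _).trans (add_le_add le_rfl ?_)) le_rfl
      refine (card_union_le _ _).trans ?_
      have e4 := card_union_le (FC ∪ q.toFinset)
        (R.filter fun c => π c u ∈ (x :: tl π x q).toFinset)
      have e5 := card_union_le FC q.toFinset
      omega
    refine (sum_le_sum hu).trans ?_
    rw [sum_add_distrib, sum_add_distrib, sum_const, smul_eq_mul]
    have e1 := sum_deg_le (π := π) S R (insert y FV)
    have e2 := sum_deg_le (π := fun c => π c * π c) S R {y}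
    have e3 : (insert y FV).card ≤ f + 1 := (card_insert_le _ _).trans (by omega)
    have e4 : S.card ≤ K * r := (card_le_card (hS.trans (hZX i))).trans hN
    rw [card_singleton] at e2
    have e5 : (insert y FV).card * r ≤ (f + 1) * r := Nat.mul_le_mul_right _ e3
    have e6 : S.card * (f + (3 * l + 7)) ≤ K * r * (f + (3 * l + 7)) := Nat.mul_le_mul_right _ e4
    rw [hI]
    nlinarith
  -- the first two steps
  have hstart : n₀ ≤ (Z' 2).card := by
    set S := Z 1 ∩ Gd with hS
    have hSc : r ≤ 2 * S.card := by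
      have e1 : ((R \ FC).filter fun c => π c x ∈ Gd \ insert x (insert y FV)).image
          (fun c => π c x) ⊆ S := by
        intro w hw
        obtain ⟨c, hc, rfl⟩ := mem_image.1 hw
        simp only [mem_filter, mem_sdiff, mem_insert, not_or] at hc
        refine mem_inter.2 ⟨mem_filter.2 ⟨hG hc.2.1, [c], by simp, ?_, rfl⟩, hc.2.1⟩
        exact (Pth.nil x Y RC).snoc hc.1 (by simp) ⟨hG hc.2.1, hc.2.2.2.2, hc.2.2.2.1⟩
          (by simp) hc.2.2.1
      have e2 := card_le_card e1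
      rw [card_image_deg hL] at e2
      have e3 := deg_le_sdiff (π := π) x R FC (Gd \ insert x (insert y FV))
      have e4 := deg_add_compl (π := π) x R (Gd \ insert x (insert y FV))
      have e5 : deg π x R (Gd \ insert x (insert y FV))ᶜ ≤
          deg π x R Gdᶜ + deg π x R (insert x (insert y FV)) := by
        refine deg_le_add _ _ fun w hw => ?_
        simp only [mem_compl, mem_sdiff] at hw ⊢
        tauto
      have e6 := deg_le_card hL x R (insert x (insert y FV))
      have e7 := card_insert_le x (insert y FV)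
      have e8 := card_insert_le y FV
      have e9 := hdef x hx
      omega
    have e1 : ∑ _u ∈ S, r ≤ ∑ u ∈ S, 2 * (deg π u R (X \ Z' 2) + deg π u R (Z' 2)) := by
      refine sum_le_sum fun u hu => ?_
      have e2 := hdef u (mem_inter.1 hu).2
      have e3 := deg_add_compl (π := π) u R Gd
      have e4 : deg π u R Gd ≤ deg π u R (X \ Z' 2) + deg π u R (Z' 2) := by
        refine deg_le_add _ _ fun w hw => ?_
        have := hG hw
        simp only [mem_sdiff]
        tauto
      omega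
    rw [sum_const, smul_eq_mul, ← mul_sum, sum_add_distrib] at e1
    have e2 := hstep 1 (by omega) S inter_subset_left
    have e3 := sum_deg_le (π := π) S R (Z' 2)
    by_contra hlt
    push Not at hlt
    have e4 : (Z' 2).card * r < n₀ * r := Nat.mul_lt_mul_of_pos_right hlt hr0
    have e5 : r * r ≤ 2 * S.card * r := Nat.mul_le_mul_right _ hSc
    have e6 : 4 * (I + n₀) * r ≤ r * r := Nat.mul_le_mul_right _ h4
    nlinarith
  have hgrow : ∀ j ≤ l, (X \ Z' (2 + j)).card < n₀ ∨ g * j ≤ (Z' (2 + j)).card := by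
    intro j
    induction j with
    | zero => intro _; right; simp
    | succ j ih =>
      intro hj
      by_cases h0 : (X \ Z' (2 + j)).card < n₀
      · left
        exact lt_of_le_of_lt (card_le_card (sdiff_subset_sdiff Subset.rfl
          (hmono _ _ (by omega)))) h0
      right
      have ih' := (ih (by omega)).resolve_left h0
      push Not at h0
      set S := Z' (2 + j) with hS
      have hSn : n₀ ≤ S.card := hstart.trans (card_le_card (hmono _ _ (by omega)))
      have e1 := hexp S ((hZ'Z _).trans (hZX _)) hSn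
      have e2 : ∑ u ∈ S, deg π u R (X \ S) ≤
          ∑ u ∈ S, (deg π u R (X \ Z' (2 + j + 1)) + deg π u R (Z' (2 + j + 1) \ S)) := by
        refine sum_le_sum fun u _ => deg_le_add _ _ fun w hw => ?_
        simp only [mem_sdiff] at hw ⊢
        tauto
      rw [sum_add_distrib] at e2
      have e3 := hstep (2 + j) (by omega) S (hZ'Z _)
      have e4 := sum_deg_le (π := π) S R (Z' (2 + j + 1) \ S)
      rw [← hr] at e4
      have e5 : (Z' (2 + j + 1) \ S).card + S.card = (Z' (2 + j + 1)).card :=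
        card_sdiff_add_card_eq_card (hmono _ _ (by omega))
      have e6 : g ≤ (Z' (2 + j + 1) \ S).card := by
        set m := (Z' (2 + j + 1) \ S).card
        have e7 : Λ * ∑ u ∈ S, deg π u R (X \ S) ≤ Λ * (I * r + m * r) :=
          Nat.mul_le_mul_left _ (by omega)
        have e8 : r * n₀ ≤ r * (X \ S).card := Nat.mul_le_mul_left _ h0
        have e9 : r * (Λ * (I + g)) ≤ r * n₀ := Nat.mul_le_mul_left _ h1
        have e10 : (r * Λ) * g ≤ (r * Λ) * m := by nlinarith
        exact Nat.le_of_mul_le_mul_left e10 (Nat.mul_pos hr0 hΛ)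
      rw [show 2 + (j + 1) = 2 + j + 1 by ring, mul_add, mul_one]
      omega
  have hfin : (X \ Z' (2 + l)).card < n₀ := by
    refine (hgrow l le_rfl).resolve_right ?_
    have := card_le_card ((hZ'Z (2 + l)).trans (hZX _))
    omega
  have hex : 0 < deg (fun c => (π c).symm) y (R \ FC) (Z' (2 + l)) := by
    have e1 := deg_le_sdiff (π := fun c => (π c).symm) y R FC X
    have e2 : deg (fun c => (π c).symm) y (R \ FC) X ≤
        deg (fun c => (π c).symm) y (R \ FC) (X \ Z' (2 + l)) +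
        deg (fun c => (π c).symm) y (R \ FC) (Z' (2 + l)) := by
      refine deg_le_add _ _ fun w hw => ?_
      simp only [mem_sdiff]
      tauto
    have e3 := deg_le_card (π := fun c => (π c).symm) (symm_inj hL) y (R \ FC) (X \ Z' (2 + l))
    omega
  obtain ⟨c, hc⟩ := card_pos.1 hex
  simp only [mem_filter, mem_sdiff, hZ'] at hc
  obtain ⟨hc1, -, q, hq1, hq2, hq3, hq4⟩ := hc
  have hend : π c (endp π x q) = y := by rw [hq3]; simp
  refine ⟨q ++ [c], by simp; omega, ?_, by rw [endp_snoc, hend]⟩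
  refine (hq2.mono (fun v hv => Or.inl ⟨hv.1, hv.2.1⟩) fun c hc => hc).snoc hc1 ?_ ?_ ?_ ?_
  · intro h
    exact hq4 c h (by simp)
  · rw [hend]; exact Or.inr rfl
  · rw [hend]; intro h; exact (hq2.vm y h).2.2 rfl
  · rw [hend]; exact hxy.symm

/-- a small set of colours which gives every good vertex `t` ways of moving into `Y` -/
lemma exists_multi_hit (Gd Y : Finset V) (R FC : Finset C) (h a : ℕ) (hh : Gd.card < 2 ^ h)
    (hdef : ∀ x ∈ Gd, deg π x R Yᶜ ≤ a) (t : ℕ)
    (hr : 2 * (a + FC.card + 2 * h * t) + 1 ≤ R.card) :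
    ∃ Γ ⊆ R \ FC, Γ.card ≤ 2 * h * t ∧ ∀ x ∈ Gd, t ≤ deg π x Γ Y := by
  classical
  induction t with
  | zero => exact ⟨∅, empty_subset _, by simp, by simp⟩
  | succ t ih =>
    obtain ⟨Γ, hΓ, hc, hx⟩ := ih (by nlinarith)
    set U := R \ (FC ∪ Γ) with hU
    have hO : ∀ x ∈ Gd, R.card < 2 * (U.filter fun c => π c x ∈ Y).card := by
      intro x hx
      have e1 := deg_le_sdiff (π := π) x R (FC ∪ Γ) Y
      have e2 := deg_add_compl (π := π) x R Y
      have e3 := hdef x hx
      have e4 := card_union_le FC Γ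
      have e5 : (U.filter fun c => π c x ∈ Y).card = deg π x (R \ (FC ∪ Γ)) Y := rfl
      have e6 : 2 * h * t ≤ 2 * h * (t + 1) := Nat.mul_le_mul_left _ (by omega)
      omega
    obtain ⟨H, hH, hHc, hhit⟩ := exists_hitting U (fun x => U.filter fun c => π c x ∈ Y) 2 h Gd hh
      (fun x _ => filter_subset _ _)
      (fun x hx => card_pos.1 (by have := hO x hx; omega))
      (fun x hx => ((card_le_card sdiff_subset).trans (hO x hx).le))
    refine ⟨Γ ∪ H, union_subset hΓ (hH.trans (sdiff_subset_sdiff Subset.rfl subset_union_left)),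
      (card_union_le _ _).trans (by nlinarith), fun x hxG => ?_⟩
    obtain ⟨e, he, heH⟩ := hhit x hxG
    have heU := mem_filter.1 he
    have hnot : e ∉ Γ.filter fun c => π c x ∈ Y := by
      intro h'
      exact (mem_sdiff.1 heU.1).2 (mem_union_right _ (mem_filter.1 h').1)
    have e1 : insert e (Γ.filter fun c => π c x ∈ Y) ⊆ (Γ ∪ H).filter fun c => π c x ∈ Y := by
      intro c hc
      rcases mem_insert.1 hc with rfl | hc
      · exact mem_filter.2 ⟨mem_union_right _ heH, heU.2⟩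
      · exact mem_filter.2 ⟨mem_union_left _ (mem_filter.1 hc).1, (mem_filter.1 hc).2⟩
    have e2 := card_le_card e1
    rw [card_insert_of_notMem hnot] at e2
    have e3 := hx x hxG
    unfold deg at e3 ⊢
    omega

/-- `(A, Γ)` connects every good vertex outside `A` to `y` -/
def Conn (π : C → Equiv.Perm V) (Gd : Finset V) (y : V) (A : Finset V) (Γ : Finset C) : Prop :=
  ∀ x ∈ Gd, x ∉ A → x ≠ y → ∃ cs, Pth π x cs {v | v ∈ A ∨ v = y} {c | c ∈ Γ} ∧ endp π x cs = y

lemma exists_conn (hL : ∀ x, Function.Injective fun c => π c x) (X Gd : Finset V) (R : Finset C)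
    (hG : Gd ⊆ X) (y : V) (a f l h t q : ℕ) (hh : Gd.card < 2 ^ h) (ht : 0 < t)
    (hq : Gd.card ≤ q * t) (hdef : ∀ x ∈ Gd, deg π x R Gdᶜ ≤ a)
    (hr : 2 * (a + 2 * f) + 1 ≤ R.card)
    (hRC : ∀ (FV : Finset V) (FC : Finset C), FV.card ≤ f → FC.card ≤ f → ∀ x ∈ Gd, x ≠ y →
      ∃ cs, cs.length ≤ l ∧ Pth π x cs {v | (v ∈ X ∧ v ∉ FV) ∨ v = y} {c | c ∈ R ∧ c ∉ FC} ∧
      endp π x cs = y)
    (FV : Finset V) (FC : Finset C) (hy : y ∈ FV) (hFV : FV.card ≤ f)
    (hFC : FC.card + 2 * h * t ≤ f) :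
    ∃ A ⊆ X \ FV, ∃ Γ ⊆ R \ FC, A.card ≤ 2 * h * t + (l + 1) * (q * h) ∧
      Γ.card ≤ 2 * h * t + (l + 1) * (q * h) ∧ Conn π Gd y A Γ := by
  classical
  have hdef' : ∀ x ∈ Gd, deg π x R (Gd \ FV)ᶜ ≤ a + f := by
    intro x hx
    have e1 : deg π x R (Gd \ FV)ᶜ ≤ deg π x R Gdᶜ + deg π x R FV := by
      refine deg_le_add _ _ fun w hw => ?_
      simp only [mem_compl, mem_sdiff] at hw ⊢
      tauto
    have e2 := deg_le_card hL x R FV
    have e3 := hdef x hx
    omega
  obtain ⟨Γ₀, hΓ₀, hΓc, hΓx⟩ := exists_multi_hit (π := π) Gd (Gd \ FV) R FC h (a + f) hh hdef' t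
    (by omega)
  obtain ⟨A₀, hA₀, hAc, hhit⟩ := exists_hitting (Gd \ FV)
    (fun x => (Γ₀.filter fun c => π c x ∈ Gd \ FV).image fun c => π c x) q h Gd hh
    (fun x _ w hw => by
      obtain ⟨c, hc, rfl⟩ := mem_image.1 hw
      exact (mem_filter.1 hc).2)
    (fun x hx => card_pos.1 (by rw [card_image_deg hL]; have := hΓx x hx; omega))
    (fun x hx => by
      rw [card_image_deg hL]
      exact (card_le_card sdiff_subset).trans (hq.trans (Nat.mul_le_mul_left _ (hΓx x hx))))
  have hpath : ∀ z ∈ A₀, ∃ cs, cs.length ≤ l ∧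
      Pth π z cs {v | (v ∈ X ∧ v ∉ FV) ∨ v = y} {c | c ∈ R ∧ c ∉ FC ∪ Γ₀} ∧ endp π z cs = y := by
    intro z hz
    have hz' := mem_sdiff.1 (hA₀ hz)
    exact hRC FV (FC ∪ Γ₀) hFV ((card_union_le _ _).trans (by omega)) z hz'.1
      (fun h => hz'.2 (h ▸ hy))
  choose! p hp1 hp2 hp3 using hpath
  refine ⟨A₀ ∪ (A₀.biUnion fun z => (tl π z (p z)).toFinset).erase y, ?_,
    Γ₀ ∪ A₀.biUnion fun z => (p z).toFinset, ?_, ?_, ?_, ?_⟩
  · refine union_subset (hA₀.trans (sdiff_subset_sdiff hG Subset.rfl)) fun v hv => ?_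
    obtain ⟨hvy, hv⟩ := mem_erase.1 hv
    obtain ⟨z, hz, hv⟩ := mem_biUnion.1 hv
    rcases (hp2 z hz).vm v (List.mem_toFinset.1 hv) with h' | h'
    · exact mem_sdiff.2 h'
    · exact absurd h' hvy
  · refine union_subset hΓ₀ fun c hc => ?_
    obtain ⟨z, hz, hc⟩ := mem_biUnion.1 hc
    have := (hp2 z hz).cm c (List.mem_toFinset.1 hc)
    exact mem_sdiff.2 ⟨this.1, fun h' => this.2 (mem_union_left _ h')⟩
  · have e1 : (A₀.biUnion fun z => (tl π z (p z)).toFinset).card ≤ A₀.card * l :=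
      card_biUnion_le_card_mul _ _ _ fun z hz =>
        (List.toFinset_card_le _).trans (by simpa using hp1 z hz)
    have e2 := card_erase_le (s := A₀.biUnion fun z => (tl π z (p z)).toFinset) (a := y)
    have e3 : A₀.card * l ≤ q * h * l := Nat.mul_le_mul_right _ hAc
    refine (card_union_le _ _).trans ?_
    nlinarith
  · have e1 : (A₀.biUnion fun z => (p z).toFinset).card ≤ A₀.card * l :=
      card_biUnion_le_card_mul _ _ _ fun z hz =>
        (List.toFinset_card_le _).trans (hp1 z hz)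
    have e3 : A₀.card * l ≤ q * h * l := Nat.mul_le_mul_right _ hAc
    refine (card_union_le _ _).trans ?_
    nlinarith
  · intro x hx hxA hxy
    obtain ⟨z, hz, hzA⟩ := hhit x hx
    obtain ⟨c, hc, rfl⟩ := mem_image.1 hz
    have hc' := mem_filter.1 hc
    have hP := hp2 _ hzA
    have hzy : π c x ≠ y := fun h' => (mem_sdiff.1 hc'.2).2 (h' ▸ hy)
    have hsubA : ∀ v ∈ tl π (π c x) (p (π c x)),
        v ∈ A₀ ∪ (A₀.biUnion fun z => (tl π z (p z)).toFinset).erase y ∨ v = y := by
      intro v hv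
      by_cases hvy : v = y
      · exact Or.inr hvy
      · exact Or.inl (mem_union_right _ (mem_erase.2 ⟨hvy,
          mem_biUnion.2 ⟨_, hzA, List.mem_toFinset.2 hv⟩⟩))
    refine ⟨c :: p (π c x), ⟨?_, ?_, ?_, ?_, ?_⟩, by rw [endp_cons, hp3 _ hzA]⟩
    · refine List.nodup_cons.2 ⟨fun h' => ?_, hP.cn⟩
      exact (hP.cm c h').2 (mem_union_right _ hc'.1)
    · rw [tl_cons]
      exact List.nodup_cons.2 ⟨hP.hx, hP.vn⟩
    · rw [tl_cons, List.mem_cons]
      rintro (h' | h')
      · exact hxA (mem_union_left _ (h' ▸ hzA))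
      · rcases hsubA x h' with h'' | h''
        · exact hxA h''
        · exact hxy h''
    · intro c' hc''
      rcases List.mem_cons.1 hc'' with rfl | h'
      · exact mem_union_left _ hc'.1
      · exact mem_union_right _ (mem_biUnion.2 ⟨_, hzA, List.mem_toFinset.2 h'⟩)
    · intro v hv
      rw [tl_cons, List.mem_cons] at hv
      rcases hv with rfl | hv
      · exact Or.inl (mem_union_left _ hzA)
      · exact hsubA v hv

end Pool.Agent.P.MP_0c87c4_co.Asym
end

-- part Pool.Agent.P.MP_0c87c4_co.AForest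
section

/-!
# Rainbow path forests with prescribed start vertices
-/

set_option linter.unusedSectionVars false

namespace Pool.Agent.P.MP_0c87c4_co.Asym

open Finset

variable {V C : Type*} (π : C → Equiv.Perm V) {ι : Type*} [Fintype ι] [DecidableEq ι]
  [DecidableEq V] [DecidableEq C]

/-- the multiset of all edges (colour, head) of a family of walks -/
def edges (y : ι → V) (p : ι → List C) : Multiset (C × V) :=
  ∑ j, ((ed π (y j) (p j) : List (C × V)) : Multiset (C × V))

structure Valid (y : ι → V) (p : ι → List C) (Y : Finset V) (R : Finset C) : Prop where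
  cn : ((edges π y p).map Prod.fst).Nodup
  vn : ((edges π y p).map Prod.snd).Nodup
  mem : ∀ e ∈ edges π y p, e.1 ∈ R ∧ e.2 ∈ Y

variable {π}

lemma edges_update (y : ι → V) (p : ι → List C) (a : ι) (l : List C) :
    edges π y (Function.update p a l) + (ed π (y a) (p a) : Multiset (C × V)) =
      edges π y p + (ed π (y a) l : Multiset (C × V)) := by
  unfold edges
  rw [← add_sum_erase _ _ (mem_univ a), ← add_sum_erase _ _ (mem_univ a)]
  have : ∑ j ∈ univ.erase a, ((ed π (y j) (Function.update p a l j) : List (C × V)) :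
      Multiset (C × V)) = ∑ j ∈ univ.erase a, ((ed π (y j) (p j) : List (C × V)) :
      Multiset (C × V)) := by
    refine sum_congr rfl fun j hj => ?_
    rw [Function.update_of_ne (ne_of_mem_erase hj)]
  rw [this, Function.update_self]
  abel

lemma mem_edges {y : ι → V} {p : ι → List C} {e : C × V} :
    e ∈ edges π y p ↔ ∃ j, e ∈ ed π (y j) (p j) := by
  unfold edges
  rw [Multiset.mem_sum]
  simp

lemma card_edges (y : ι → V) (p : ι → List C) :
    (edges π y p).card = ∑ j, (p j).length := by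
  unfold edges
  rw [Multiset.card_sum]
  simp

lemma edges_ext (y : ι → V) (p : ι → List C) (a : ι) (c : C) :
    edges π y (Function.update p a (p a ++ [c])) =
      (c, π c (endp π (y a) (p a))) ::ₘ edges π y p := by
  have h := edges_update (π := π) y p a (p a ++ [c])
  rw [ed_append, ← Multiset.coe_add] at h
  have h2 : edges π y p + ((ed π (y a) (p a) : Multiset (C × V)) +
      (ed π (endp π (y a) (p a)) [c] : List (C × V))) =
      ((c, π c (endp π (y a) (p a))) ::ₘ edges π y p) + (ed π (y a) (p a) : Multiset (C × V)) := by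
    simp only [ed_cons, ed_nil, Multiset.coe_singleton]
    rw [← Multiset.singleton_add]
    abel
  rw [h2] at h
  exact add_right_cancel h

lemma edges_swap (y : ι → V) (p : ι → List C) (a b : ι) (hab : a ≠ b) (c e : C)
    (l₁ l₂ : List C) (hb : p b = l₁ ++ e :: l₂)
    (hw : π e (endp π (y b) l₁) = π c (endp π (y a) (p a))) :
    ∃ M₀, edges π y p = (e, π c (endp π (y a) (p a))) ::ₘ M₀ ∧
      edges π y (Function.update (Function.update p a (p a ++ c :: l₂)) b l₁) =
        (c, π c (endp π (y a) (p a))) ::ₘ M₀ := by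
  set w := π c (endp π (y a) (p a)) with hwdef
  have hmem : (e, w) ∈ edges π y p := by
    refine mem_edges.2 ⟨b, ?_⟩
    rw [hb, ed_append, ed_cons, hw]
    simp
  obtain ⟨M₀, hM₀⟩ := Multiset.exists_cons_of_mem hmem
  refine ⟨M₀, hM₀, ?_⟩
  have h1 := edges_update (π := π) y p a (p a ++ c :: l₂)
  have h2 := edges_update (π := π) y (Function.update p a (p a ++ c :: l₂)) b l₁
  rw [Function.update_of_ne hab.symm, hb, ed_append, ed_cons, hw, ← Multiset.coe_add,
    ← Multiset.cons_coe] at h2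
  rw [ed_append, ed_cons, ← hwdef, ← Multiset.coe_add, ← Multiset.cons_coe, hM₀] at h1
  generalize edges π y (Function.update (Function.update p a (p a ++ c :: l₂)) b l₁) = A at *
  generalize edges π y (Function.update p a (p a ++ c :: l₂)) = B at *
  generalize Multiset.ofList (ed π (y b) l₁) = E₁ at *
  generalize Multiset.ofList (ed π w l₂) = E₂ at *
  generalize Multiset.ofList (ed π (y a) (p a)) = E₃ at *
  simp only [← Multiset.singleton_add] at h1 h2 ⊢
  have h3 : B = {(e, w)} + M₀ + ({(c, w)} + E₂) := by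
    have : B + E₃ = {(e, w)} + M₀ + ({(c, w)} + E₂) + E₃ := by rw [h1]; abel
    exact add_right_cancel this
  have : A + (E₁ + ({(e, w)} + E₂)) = {(c, w)} + M₀ + (E₁ + ({(e, w)} + E₂)) := by
    rw [h2, h3]; abel
  exact add_right_cancel this

lemma augment [Fintype V] (hL : ∀ x, Function.Injective fun c => π c x) (y : ι → V) (Y : Finset V)
    (R : Finset C) (θ : ℕ) (hY : ∀ x ∈ Y, deg π x R Yᶜ ≤ θ) (hy : ∀ j, deg π (y j) R Yᶜ ≤ θ)
    (p : ι → List C) (hp : Valid π y p Y R) (s : ℕ) (a : Fin s → ι) (ha : Function.Injective a)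
    (Q : Finset V) (hQ : ∀ k, ∀ v ∈ tl π (y (a k)) (p (a k)), v ∈ Q) (Δ : ℕ)
    (hΔ : (edges π y p).card + θ + Q.card + Δ ≤ R.card) (hs : (edges π y p).card < s * Δ) :
    ∃ p', Valid π y p' Y R ∧ (edges π y p').card = (edges π y p).card + 1 := by
  classical
  by_contra hcon
  push Not at hcon
  set M := edges π y p with hM
  set U := (M.map Prod.fst).toFinset with hU
  have hUcard : U.card = M.card := by
    rw [hU, Multiset.toFinset_card_of_nodup hp.cn, Multiset.card_map]
  have hUR : U ⊆ R := by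
    intro c hc
    rw [hU, Multiset.mem_toFinset, Multiset.mem_map] at hc
    obtain ⟨e, he, rfl⟩ := hc
    exact (hp.mem e he).1
  have key : ∀ i, i ≤ s → ∃ D ⊆ U, i * Δ ≤ D.card ∧ ∀ c ∈ (R \ U) ∪ D, ∃ p',
      Valid π y p' Y R ∧ (edges π y p').card = M.card ∧ c ∉ (edges π y p').map Prod.fst ∧
      (∀ w ∈ (edges π y p').map Prod.snd, w ∈ M.map Prod.snd) ∧
      (∀ e ∈ M, e.1 ∉ D → e ∈ edges π y p') ∧ ∀ k : Fin s, i ≤ k → p' (a k) = p (a k) := by
    intro i
    induction i with
    | zero =>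
      intro _
      refine ⟨∅, empty_subset _, by simp, fun c hc => ⟨p, hp, rfl, ?_, fun w hw => hw,
        fun e he _ => he, fun _ _ => rfl⟩⟩
      simp only [union_empty, mem_sdiff] at hc
      intro h
      exact hc.2 (Multiset.mem_toFinset.2 h)
    | succ i ih =>
      intro hi
      obtain ⟨D, hDU, hDc, hD⟩ := ih (by omega)
      set k₀ : Fin s := ⟨i, by omega⟩ with hk₀
      set v := endp π (y (a k₀)) (p (a k₀)) with hv
      have hvdeg : deg π v R Yᶜ ≤ θ := by
        rcases endp_mem π (y (a k₀)) (p (a k₀)) with h | h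
        · rw [hv, h]; exact hy _
        · apply hY
          rw [← map_snd_ed, List.mem_map] at h
          obtain ⟨e, he, he'⟩ := h
          rw [hv, ← he']
          exact (hp.mem e (mem_edges.2 ⟨_, he⟩)).2
      set T := ((R \ U) ∪ D).filter fun c => π c v ∈ Y \ Q with hT
      have hsub : (R \ U) ∪ D ⊆ R := union_subset sdiff_subset (hDU.trans hUR)
      have hTcard : D.card + Δ ≤ T.card := by
        have h1 : ((R \ U) ∪ D).card = R.card - U.card + D.card := by
          rw [card_union_of_disjoint, card_sdiff_of_subset hUR]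
          exact disjoint_left.2 fun c hc hc' => (mem_sdiff.1 hc).2 (hDU hc')
        have h2 := deg_add_compl (π := π) v ((R \ U) ∪ D) (Y \ Q)
        have h3 : deg π v ((R \ U) ∪ D) (Y \ Q)ᶜ ≤
            deg π v ((R \ U) ∪ D) Yᶜ + deg π v ((R \ U) ∪ D) Q := by
          refine deg_le_add _ _ fun w hw => ?_
          simp only [mem_compl, mem_sdiff] at hw ⊢
          tauto
        have h4 : deg π v ((R \ U) ∪ D) Yᶜ ≤ θ := (deg_mono _ hsub Subset.rfl).trans hvdeg
        have h5 := deg_le_card hL v ((R \ U) ∪ D) Q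
        have h6 : T.card = deg π v ((R \ U) ∪ D) (Y \ Q) := rfl
        have h7 := card_le_card hUR
        omega
      have hhead : ∀ c ∈ T, ∃ e, (e, π c v) ∈ M := by
        intro c hc
        rw [hT, mem_filter, mem_sdiff] at hc
        obtain ⟨p', hp', hc1, hc2, hc3, -, hc5⟩ := hD c hc.1
        by_contra hno
        have hnot : π c v ∉ (edges π y p').map Prod.snd := by
          intro h
          obtain ⟨e, he, he'⟩ := Multiset.mem_map.1 (hc3 _ h)
          exact hno ⟨e.1, by rw [← he']; exact he⟩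
        have hext := edges_ext (π := π) y p' (a k₀) c
        rw [hc5 k₀ le_rfl, ← hv] at hext
        refine hcon (Function.update p' (a k₀) (p (a k₀) ++ [c])) ⟨?_, ?_, ?_⟩ ?_
        · rw [hext, Multiset.map_cons, Multiset.nodup_cons]
          exact ⟨hc2, hp'.cn⟩
        · rw [hext, Multiset.map_cons, Multiset.nodup_cons]
          exact ⟨hnot, hp'.vn⟩
        · intro e he
          rw [hext, Multiset.mem_cons] at he
          rcases he with rfl | he
          · exact ⟨hsub hc.1, hc.2.1⟩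
          · exact hp'.mem e he
        · rw [hext, Multiset.card_cons, hc1]
      choose! f hf using hhead
      refine ⟨D ∪ T.image f, ?_, ?_, ?_⟩
      · refine union_subset hDU fun e he => ?_
        obtain ⟨c, hc, rfl⟩ := mem_image.1 he
        exact Multiset.mem_toFinset.2 (Multiset.mem_map.2 ⟨_, hf c hc, rfl⟩)
      · have h1 : (T.image f).card = T.card := by
          refine card_image_of_injOn fun c hc c' hc' h => ?_
          have := Multiset.inj_on_of_nodup_map hp.cn _ (hf c hc) _ (hf c' hc') h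
          exact hL v (congrArg Prod.snd this)
        have h2 : (T.image f).card ≤ (D ∪ T.image f).card := card_le_card subset_union_right
        rw [add_mul, one_mul]
        omega
      · intro e he
        by_cases hold : e ∈ (R \ U) ∪ D
        · obtain ⟨p', hp', hc1, hc2, hc3, hc4, hc5⟩ := hD e hold
          exact ⟨p', hp', hc1, hc2, hc3, fun e' he' hn => hc4 e' he' fun h => hn (mem_union_left _ h),
            fun k hk => hc5 k (by omega)⟩
        have he2 : e ∈ T.image f := by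
          simp only [mem_union] at he hold
          tauto
        obtain ⟨c, hc, rfl⟩ := mem_image.1 he2
        have hcT := hc
        rw [hT, mem_filter, mem_sdiff] at hc
        obtain ⟨p', hp', hc1, hc2, hc3, hc4, hc5⟩ := hD c hc.1
        have hin : (f c, π c v) ∈ edges π y p' :=
          hc4 _ (hf c hcT) fun h => hold (mem_union_right _ h)
        obtain ⟨b, hb⟩ := mem_edges.1 hin
        have hbne : ∀ k : Fin s, i ≤ k → a k ≠ b := by
          rintro k hk rfl
          rw [hc5 k hk] at hb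
          apply hc.2.2
          apply hQ k
          rw [← map_snd_ed]
          exact List.mem_map.2 ⟨_, hb, rfl⟩
        obtain ⟨l₁, l₂, hl, hw⟩ := mem_ed π _ _ _ _ hb
        have hv' : v = endp π (y (a k₀)) (p' (a k₀)) := by rw [hc5 k₀ le_rfl]
        obtain ⟨M₀, hM₁, hM₂⟩ := edges_swap (π := π) y p' (a k₀) b (hbne k₀ le_rfl) c (f c) l₁ l₂ hl
          (by rw [hw, hv'])
        rw [← hv'] at hM₁ hM₂
        have hcn := hp'.cn
        have hvn := hp'.vn
        rw [hM₁, Multiset.map_cons, Multiset.nodup_cons] at hcn hvn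
        rw [hM₁, Multiset.map_cons, Multiset.mem_cons, not_or] at hc2
        refine ⟨Function.update (Function.update p' (a k₀) (p' (a k₀) ++ c :: l₂)) b l₁,
          ⟨?_, ?_, ?_⟩, ?_, ?_, ?_, ?_, ?_⟩
        · rw [hM₂, Multiset.map_cons, Multiset.nodup_cons]
          exact ⟨hc2.2, hcn.2⟩
        · rw [hM₂, Multiset.map_cons, Multiset.nodup_cons]
          exact hvn
        · intro e he
          rw [hM₂, Multiset.mem_cons] at he
          rcases he with rfl | he
          · exact ⟨hsub hc.1, hc.2.1⟩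
          · exact hp'.mem e (by rw [hM₁]; exact Multiset.mem_cons_of_mem he)
        · rw [hM₂, ← hc1, hM₁, Multiset.card_cons, Multiset.card_cons]
        · rw [hM₂, Multiset.map_cons, Multiset.mem_cons, not_or]
          exact ⟨fun h => hc2.1 h.symm, hcn.1⟩
        · intro w hw
          apply hc3
          rw [hM₂, Multiset.map_cons] at hw
          rw [hM₁, Multiset.map_cons]
          exact hw
        · intro e' he' hn
          have h1 := hc4 e' he' fun h => hn (mem_union_left _ h)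
          rw [hM₁, Multiset.mem_cons] at h1
          rcases h1 with rfl | h1
          · exact absurd (mem_union_right _ he2) hn
          · rw [hM₂]; exact Multiset.mem_cons_of_mem h1
        · intro k hk
          rw [Function.update_of_ne (hbne k (by omega)), Function.update_of_ne, hc5 k (by omega)]
          intro h
          have := congrArg Fin.val (ha h)
          simp only [hk₀] at this
          omega
  obtain ⟨D, hDU, hDc, -⟩ := key s le_rfl
  have := card_le_card hDU
  omega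

/-- the forest lemma -/
lemma exists_forest [Fintype V] (hL : ∀ x, Function.Injective fun c => π c x) (g s : ℕ)
    (hg : 0 < g) (y : Fin g × Fin s → V) (Y : Finset V)
    (R : Finset C) (θ : ℕ) (hY : ∀ x ∈ Y, deg π x R Yᶜ ≤ θ) (hy : ∀ j, deg π (y j) R Yᶜ ≤ θ)
    (N qb Δ : ℕ) (hq : N ≤ g * qb) (hΔ : N + θ + qb + Δ ≤ R.card) (hs : N ≤ s * Δ) :
    ∃ p, Valid π y p Y R ∧ ∑ j, (p j).length = N := by
  classical
  have key : ∀ n, n ≤ N → ∃ p, Valid π y p Y R ∧ (edges π y p).card = n := by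
    intro n
    induction n with
    | zero =>
      intro _
      have : edges π y (fun _ => ([] : List C)) = 0 := by simp [edges]
      exact ⟨fun _ => [], ⟨by simp [this], by simp [this], by simp [this]⟩, by simp [this]⟩
    | succ n ih =>
      intro hn
      obtain ⟨p, hp, hc⟩ := ih (by omega)
      have hsum : ∑ γ : Fin g, ∑ k : Fin s, (p (γ, k)).length = n := by
        rw [← hc, card_edges, Fintype.sum_prod_type]
      obtain ⟨γ, hγ⟩ : ∃ γ : Fin g, ∑ k : Fin s, (p (γ, k)).length ≤ qb := by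
        by_contra hno
        push Not at hno
        have h1 : ∑ _γ : Fin g, (qb + 1) ≤ ∑ γ : Fin g, ∑ k : Fin s, (p (γ, k)).length :=
          sum_le_sum fun γ _ => hno γ
        simp only [sum_const, card_univ, Fintype.card_fin, smul_eq_mul] at h1
        nlinarith
      set Q := univ.biUnion fun k : Fin s => (tl π (y (γ, k)) (p (γ, k))).toFinset with hQ
      have hQc : Q.card ≤ qb := by
        refine card_biUnion_le.trans (le_trans (sum_le_sum fun k _ => ?_) hγ)
        exact (List.toFinset_card_le _).trans (by simp)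
      obtain ⟨p', hp', hc'⟩ := augment hL y Y R θ hY hy p hp s (fun k => (γ, k))
        (fun k k' h => congrArg Prod.snd h) Q
        (fun k v hv => mem_biUnion.2 ⟨k, mem_univ _, List.mem_toFinset.2 hv⟩) Δ
        (by omega) (by omega)
      exact ⟨p', hp', by omega⟩
  obtain ⟨p, hp, hc⟩ := key N le_rfl
  exact ⟨p, hp, by rw [← hc, card_edges]⟩

/-- what validity says about the single paths -/
lemma Valid.nodup_col {y : ι → V} {p : ι → List C} {Y : Finset V} {R : Finset C}
    (h : Valid π y p Y R) :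
    (∀ j, (p j).Nodup) ∧ ∀ j j', j ≠ j' → ∀ c ∈ p j, c ∉ p j' := by
  have h1 := h.cn
  have : (edges π y p).map Prod.fst = ∑ j, ((p j : List C) : Multiset C) := by
    unfold edges
    rw [← Multiset.coe_mapAddMonoidHom, map_sum]
    simp
  rw [this] at h1
  constructor
  · intro j
    have := Multiset.nodup_of_le (single_le_sum (f := fun j => ((p j : List C) : Multiset C))
      (fun _ _ => zero_le) (mem_univ j)) h1
    simpa using this
  · intro j j' hne c hc hc'
    have h2 : ∑ i ∈ ({j, j'} : Finset ι), ((p i : List C) : Multiset C) ≤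
        ∑ j, ((p j : List C) : Multiset C) := sum_le_sum_of_subset (subset_univ _)
    rw [sum_pair hne] at h2
    have h3 := (Multiset.nodup_add.1 (Multiset.nodup_of_le h2 h1)).2.2
    exact Multiset.disjoint_left.1 h3 (by simpa using hc) (by simpa using hc')

lemma Valid.nodup_vert {y : ι → V} {p : ι → List C} {Y : Finset V} {R : Finset C}
    (h : Valid π y p Y R) :
    (∀ j, (tl π (y j) (p j)).Nodup) ∧
      ∀ j j', j ≠ j' → ∀ v ∈ tl π (y j) (p j), v ∉ tl π (y j') (p j') := by
  have h1 := h.vn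
  have : (edges π y p).map Prod.snd = ∑ j, ((tl π (y j) (p j) : List V) : Multiset V) := by
    unfold edges
    rw [← Multiset.coe_mapAddMonoidHom, map_sum]
    simp
  rw [this] at h1
  constructor
  · intro j
    have := Multiset.nodup_of_le
      (single_le_sum (f := fun j => ((tl π (y j) (p j) : List V) : Multiset V))
      (fun _ _ => zero_le) (mem_univ j)) h1
    simpa using this
  · intro j j' hne c hc hc'
    have h2 : ∑ i ∈ ({j, j'} : Finset ι), ((tl π (y i) (p i) : List V) : Multiset V) ≤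
        ∑ j, ((tl π (y j) (p j) : List V) : Multiset V) := sum_le_sum_of_subset (subset_univ _)
    rw [sum_pair hne] at h2
    have h3 := (Multiset.nodup_add.1 (Multiset.nodup_of_le h2 h1)).2.2
    exact Multiset.disjoint_left.1 h3 (by simpa using hc) (by simpa using hc')

lemma Valid.mem_col {y : ι → V} {p : ι → List C} {Y : Finset V} {R : Finset C}
    (h : Valid π y p Y R) (j : ι) : ∀ c ∈ p j, c ∈ R := by
  intro c hc
  rw [← map_fst_ed π (y j) (p j), List.mem_map] at hc
  obtain ⟨e, he, rfl⟩ := hc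
  exact (h.mem e (mem_edges.2 ⟨j, he⟩)).1

lemma Valid.mem_vert {y : ι → V} {p : ι → List C} {Y : Finset V} {R : Finset C}
    (h : Valid π y p Y R) (j : ι) : ∀ v ∈ tl π (y j) (p j), v ∈ Y := by
  intro c hc
  rw [← map_snd_ed π (y j) (p j), List.mem_map] at hc
  obtain ⟨e, he, rfl⟩ := hc
  exact (h.mem e (mem_edges.2 ⟨j, he⟩)).2

end Pool.Agent.P.MP_0c87c4_co.Asym
end

-- part Pool.Agent.P.MP_0c87c4_co.ADense
section

/-!
# The dense case: a long rainbow path in a nearly closed set of linear size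
-/

set_option linter.unusedSectionVars false

namespace Pool.Agent.P.MP_0c87c4_co.Asym

open Finset

variable {V C : Type*} {π : C → Equiv.Perm V} [DecidableEq V] [DecidableEq C] [Fintype V]

lemma exists_piece (W : Finset V) (R : Finset C) (Λ n₀ : ℕ) (hW : n₀ ≤ W.card) :
    ∃ X ⊆ W, n₀ ≤ X.card ∧ Λ * ∑ x ∈ X, deg π x R (W \ X) ≤ R.card * W.card ∧
      ∀ S ⊆ X, n₀ ≤ S.card → R.card * (X \ S).card ≤ Λ * ∑ u ∈ S, deg π u R (X \ S) := by
  classical
  obtain ⟨X, hX, hmin⟩ := exists_min_image (W.powerset.filter fun X => n₀ ≤ X.card)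
    (fun X => Λ * ∑ x ∈ X, deg π x R (W \ X) + R.card * X.card)
    ⟨W, mem_filter.2 ⟨mem_powerset_self _, hW⟩⟩
  obtain ⟨hXW, hXn⟩ := mem_filter.1 hX
  rw [mem_powerset] at hXW
  refine ⟨X, hXW, hXn, ?_, fun S hS hSn => ?_⟩
  · have := hmin W (mem_filter.2 ⟨mem_powerset_self _, hW⟩)
    simp only [sdiff_self, bot_eq_empty] at this
    have h0 : ∑ x ∈ W, deg π x R ∅ = 0 := sum_eq_zero fun x _ => by simp [deg]
    rw [h0] at this
    omega
  · have h1 := hmin S (mem_filter.2 ⟨mem_powerset.2 (hS.trans hXW), hSn⟩)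
    have h2 : ∑ u ∈ S, deg π u R (W \ S) ≤ ∑ u ∈ S, (deg π u R (X \ S) + deg π u R (W \ X)) := by
      refine sum_le_sum fun u _ => deg_le_add _ _ fun w hw => ?_
      simp only [mem_sdiff] at hw ⊢
      tauto
    rw [sum_add_distrib] at h2
    have h3 : ∑ u ∈ S, deg π u R (W \ X) ≤ ∑ u ∈ X, deg π u R (W \ X) :=
      sum_le_sum_of_subset hS
    have h4 : (X \ S).card + S.card = X.card := card_sdiff_add_card_eq_card hS
    have h5 : Λ * ∑ u ∈ S, deg π u R (W \ S) ≤
        Λ * (∑ u ∈ S, deg π u R (X \ S) + ∑ u ∈ X, deg π u R (W \ X)) :=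
      Nat.mul_le_mul_left _ (by omega)
    rw [← h4] at h1
    nlinarith

lemma exists_conns {ι : Type*} [Fintype ι] [DecidableEq ι] (X Gd : Finset V) (R : Finset C)
    (y : ι → V) (b f : ℕ) (FV : Finset V) (FC : Finset C) (hy : ∀ j, y j ∈ FV)
    (hV : FV.card + Fintype.card ι * b ≤ f) (hC : FC.card + (Fintype.card ι + 1) * b ≤ f)
    (J : Finset ι)
    (hconn : ∀ j ∈ J, ∀ (FV : Finset V) (FC : Finset C), y j ∈ FV → FV.card ≤ f →
      FC.card + b ≤ f → ∃ A ⊆ X \ FV, ∃ Γ ⊆ R \ FC, A.card ≤ b ∧ Γ.card ≤ b ∧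
        Conn π Gd (y j) A Γ) :
    ∃ (A : ι → Finset V) (Γ : ι → Finset C),
      (∀ j, A j ⊆ X \ FV ∧ Γ j ⊆ R \ FC ∧ (A j).card ≤ b ∧ (Γ j).card ≤ b) ∧
      (∀ j ∈ J, Conn π Gd (y j) (A j) (Γ j)) ∧
      ∀ j j', j ≠ j' → (∀ v ∈ A j, v ∉ A j') ∧ ∀ c ∈ Γ j, c ∉ Γ j' := by
  classical
  induction J using Finset.induction_on with
  | empty => exact ⟨fun _ => ∅, fun _ => ∅, by simp, by simp, by simp⟩
  | insert j₀ J hj₀ ih =>
    obtain ⟨A, Γ, h1, h2, h3⟩ := ih fun j hj => hconn j (mem_insert_of_mem hj)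
    have e1 : (univ.biUnion A).card ≤ Fintype.card ι * b :=
      card_biUnion_le_card_mul _ _ _ fun j _ => (h1 j).2.2.1
    have e2 : (univ.biUnion Γ).card ≤ Fintype.card ι * b :=
      card_biUnion_le_card_mul _ _ _ fun j _ => (h1 j).2.2.2
    obtain ⟨A₀, hA₀, Γ₀, hΓ₀, hAc, hΓc, hcn⟩ := hconn j₀ (mem_insert_self _ _)
      (FV ∪ univ.biUnion A) (FC ∪ univ.biUnion Γ) (mem_union_left _ (hy j₀))
      ((card_union_le _ _).trans (by omega))
      (by have := card_union_le FC (univ.biUnion Γ); nlinarith)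
    have hA : ∀ v ∈ A₀, ∀ j, v ∉ A j := fun v hv j hj =>
      (mem_sdiff.1 (hA₀ hv)).2 (mem_union_right _ (mem_biUnion.2 ⟨j, mem_univ _, hj⟩))
    have hΓ : ∀ v ∈ Γ₀, ∀ j, v ∉ Γ j := fun v hv j hj =>
      (mem_sdiff.1 (hΓ₀ hv)).2 (mem_union_right _ (mem_biUnion.2 ⟨j, mem_univ _, hj⟩))
    refine ⟨Function.update A j₀ A₀, Function.update Γ j₀ Γ₀, fun j => ?_, fun j hj => ?_,
      fun j j' hne => ?_⟩
    · by_cases hj : j = j₀
      · subst hj
        simp only [Function.update_self]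
        exact ⟨hA₀.trans (sdiff_subset_sdiff Subset.rfl subset_union_left),
          hΓ₀.trans (sdiff_subset_sdiff Subset.rfl subset_union_left), hAc, hΓc⟩
      · simp only [Function.update_of_ne hj]
        exact h1 j
    · by_cases hjj : j = j₀
      · subst hjj
        simp only [Function.update_self]
        exact hcn
      · simp only [Function.update_of_ne hjj]
        exact h2 j ((mem_insert.1 hj).resolve_left hjj)
    · by_cases hj : j = j₀
      · subst hj
        simp only [Function.update_self, Function.update_of_ne hne.symm]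
        exact ⟨fun v hv => hA v hv _, fun v hv => hΓ v hv _⟩
      · by_cases hj' : j' = j₀
        · subst hj'
          simp only [Function.update_self, Function.update_of_ne hne]
          exact ⟨fun v hv hv' => hA v hv' _ hv, fun v hv hv' => hΓ v hv' _ hv⟩
        · simp only [Function.update_of_ne hj, Function.update_of_ne hj']
          exact h3 j j' hne

lemma concat_blocks {ι : Type*} [Fintype ι] [DecidableEq ι] (Gd : Finset V) (BV : ι → Set V)
    (BC : ι → Set C) (n : ι → ℕ) (x₀ : V) (j₀ : ι)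
    (hV : ∀ j j', j ≠ j' → ∀ v ∈ BV j, v ∉ BV j') (hC : ∀ j j', j ≠ j' → ∀ c ∈ BC j, c ∉ BC j')
    (h0 : x₀ ∈ BV j₀)
    (hp0 : ∃ cs, Pth π x₀ cs (BV j₀) (BC j₀) ∧ n j₀ ≤ cs.length ∧ endp π x₀ cs ∈ Gd)
    (hj : ∀ j, j ≠ j₀ → ∀ x ∈ Gd, x ∉ BV j →
      ∃ cs, Pth π x cs (BV j) (BC j) ∧ n j ≤ cs.length ∧ endp π x cs ∈ Gd) :
    ∃ cs, Pth π x₀ cs {v | ∃ j, v ∈ BV j} {c | ∃ j, c ∈ BC j} ∧ ∑ j, n j ≤ cs.length := by
  have key : ∀ J : Finset ι, j₀ ∉ J → ∃ cs, Pth π x₀ cs {v | ∃ j ∈ insert j₀ J, v ∈ BV j}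
      {c | ∃ j ∈ insert j₀ J, c ∈ BC j} ∧ n j₀ + ∑ j ∈ J, n j ≤ cs.length ∧
      endp π x₀ cs ∈ Gd := by
    intro J
    induction J using Finset.induction_on with
    | empty =>
      intro _
      obtain ⟨cs, h1, h2, h3⟩ := hp0
      exact ⟨cs, h1.mono (fun v hv => ⟨j₀, by simp, hv⟩) fun v hv => ⟨j₀, by simp, hv⟩,
        by simpa using h2, h3⟩
    | insert j J hjJ ih =>
      intro hj₀
      have hne : j ≠ j₀ := fun h => hj₀ (h ▸ mem_insert_self _ _)
      obtain ⟨cs, h1, h2, h3⟩ := ih fun h => hj₀ (mem_insert_of_mem h)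
      have hne' : ∀ i ∈ insert j₀ J, i ≠ j := by
        intro i hi h
        rcases mem_insert.1 hi with h' | h'
        · exact hne (h ▸ h')
        · exact hjJ (h ▸ h')
      have htl : ∀ v ∈ tl π x₀ cs, v ∉ BV j := by
        intro v hv
        obtain ⟨i, hi, hvi⟩ := h1.vm v hv
        exact hV i j (hne' i hi) v hvi
      have hx₀ : x₀ ∉ BV j := hV j₀ j hne.symm x₀ h0
      have hend : endp π x₀ cs ∉ BV j := by
        rcases endp_mem π x₀ cs with h | h
        · rw [h]; exact hx₀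
        · exact htl _ h
      obtain ⟨cs', h4, h5, h6⟩ := hj j hne _ h3 hend
      refine ⟨cs ++ cs', h1.append h4 ?_ htl hx₀ ?_ ?_ ?_ ?_, ?_, by rw [endp_append]; exact h6⟩
      · intro c hc
        obtain ⟨i, hi, hci⟩ := h1.cm c hc
        exact hC i j (hne' i hi) c hci
      · rintro v ⟨i, hi, hvi⟩
        exact ⟨i, by simp only [mem_insert] at hi ⊢; tauto, hvi⟩
      · intro v hv
        exact ⟨j, by simp, hv⟩
      · rintro v ⟨i, hi, hvi⟩
        exact ⟨i, by simp only [mem_insert] at hi ⊢; tauto, hvi⟩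
      · intro v hv
        exact ⟨j, by simp, hv⟩
      · rw [sum_insert hjJ, List.length_append]; omega
  obtain ⟨cs, h1, h2, -⟩ := key (univ.erase j₀) (notMem_erase _ _)
  refine ⟨cs, h1.mono ?_ ?_, ?_⟩
  · rintro v ⟨i, -, hvi⟩
    exact ⟨i, hvi⟩
  · rintro v ⟨i, -, hvi⟩
    exact ⟨i, hvi⟩
  · rw [← add_sum_erase _ _ (mem_univ j₀)]
    exact h2

lemma sum_deg_symm (S : Finset V) (R : Finset C) :
    ∑ y ∈ S, deg (fun c => (π c).symm) y R S = ∑ x ∈ S, deg π x R S := by
  unfold deg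
  simp only [card_filter]
  rw [sum_comm, sum_comm (s := S)]
  refine sum_congr rfl fun c _ => ?_
  rw [← card_filter, ← card_filter]
  refine card_bij (fun y _ => (π c).symm y) ?_ ?_ ?_
  · intro y hy
    simp only [mem_filter] at hy ⊢
    exact ⟨hy.2, by simpa using hy.1⟩
  · intro y _ y' _ h
    exact (π c).symm.injective h
  · intro x hx
    simp only [mem_filter] at hx
    exact ⟨π c x, mem_filter.2 ⟨hx.2, by simpa using hx.1⟩, by simp⟩

lemma dense_core (hL : ∀ x, Function.Injective fun c => π c x) (X Gd : Finset V) (R : Finset C)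
    (hG : Gd ⊆ X) (K Λ a n₀ f g l : ℕ) (hΛ : 0 < Λ)
    (hN : X.card ≤ K * R.card)
    (hdef : ∀ x ∈ Gd, deg π x R Gdᶜ ≤ a)
    (hexp : ∀ S ⊆ X, n₀ ≤ S.card → R.card * (X \ S).card ≤ Λ * ∑ u ∈ S, deg π u R (X \ S))
    (h1 : Λ * (f * (K + 1) + 2 + (3 * l + 7) * K + g) ≤ n₀)
    (h2 : K * R.card < g * l)
    (h3 : 2 * (a + 2 * f + 2) ≤ R.card)
    (h4 : 4 * (f * (K + 1) + 2 + (3 * l + 7) * K + n₀) ≤ R.card)
    (h5 : 4 * a ≤ R.card)
    (h t q : ℕ) (hh : Gd.card < 2 ^ h) (ht : 0 < t) (hq : Gd.card ≤ q * t)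
    (L gg s : ℕ) (hgg : 0 < gg) (hs : 0 < s)
    (h6 : L + gg * s + (gg * s + 1) * (2 * h * t + (l + 3 + 1) * (q * h)) ≤ f)
    (N qb Δ : ℕ) (h7 : N ≤ gg * qb) (h8 : N + (a + f) + qb + Δ + f ≤ R.card) (h9 : N ≤ s * Δ)
    (x₀ : V) (hx₀ : x₀ ∈ Gd) (FV : Finset V) (FC : Finset C) (hFV : FV.card ≤ L)
    (hFC : FC.card ≤ L) (hx₀F : x₀ ∉ FV) :
    ∃ cs, Pth π x₀ cs {v | v ∈ X ∧ v ∉ FV} {c | c ∈ R ∧ c ∉ FC} ∧ N ≤ cs.length := by
  classical
  set b := 2 * h * t + (l + 3 + 1) * (q * h) with hb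
  set Gin := Gd.filter fun y => R.card ≤ 2 * deg (fun c => (π c).symm) y R X with hGin
  have hGinc : R.card ≤ 4 * Gin.card := by
    have e1 : ∑ _x ∈ Gd, 3 * R.card ≤ ∑ x ∈ Gd, 4 * deg π x R Gd := by
      refine sum_le_sum fun x hx => ?_
      have := deg_add_compl (π := π) x R Gd
      have := hdef x hx
      omega
    rw [← mul_sum, ← mul_sum, ← sum_deg_symm, sum_const, smul_eq_mul] at e1
    have e2 : ∑ y ∈ Gd, 2 * deg (fun c => (π c).symm) y R Gd ≤
        ∑ y ∈ Gd, (R.card + if R.card ≤ 2 * deg (fun c => (π c).symm) y R X then R.card else 0) := by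
      refine sum_le_sum fun y _ => ?_
      have e3 := deg_le_col (π := fun c => (π c).symm) y R Gd
      have e4 : deg (fun c => (π c).symm) y R Gd ≤ deg (fun c => (π c).symm) y R X :=
        deg_mono _ Subset.rfl hG
      split_ifs <;> omega
    rw [← mul_sum, sum_add_distrib, sum_const, smul_eq_mul, ← sum_filter, sum_const,
      smul_eq_mul, ← hGin] at e2
    have e3 : Gd.card * R.card ≤ (2 * Gin.card) * R.card := by nlinarith
    have e4 : Gd.card ≤ 2 * Gin.card := Nat.le_of_mul_le_mul_right e3 (by omega)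
    have e5 := deg_add_compl (π := π) x₀ R Gd
    have e6 := hdef x₀ hx₀
    have e7 := deg_le_card hL x₀ R Gd
    omega
  have hcard : Fintype.card (Fin gg × Fin s) = gg * s := by simp
  have hbig : Fintype.card (Fin gg × Fin s) ≤ (Gin \ insert x₀ FV).card := by
    have e1 := le_card_sdiff (insert x₀ FV) Gin
    have e2 := card_insert_le x₀ FV
    rw [hcard]
    omega
  obtain ⟨e, he⟩ := Function.Embedding.exists_of_card_le_finset hbig
  have he' : ∀ j, e j ∈ Gin ∧ e j ≠ x₀ ∧ e j ∉ FV := by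
    intro j
    have := he ⟨j, rfl⟩
    simpa only [coe_sdiff, coe_insert, Set.mem_sdiff, mem_coe, Set.mem_insert_iff, not_or] using this
  set j₀ : Fin gg × Fin s := (⟨0, hgg⟩, ⟨0, hs⟩) with hj₀
  set y : Fin gg × Fin s → V := Function.update e j₀ x₀ with hy
  have hy0 : y j₀ = x₀ := Function.update_self _ _ _
  have hy1 : ∀ j, j ≠ j₀ → y j = e j := fun j hj => Function.update_of_ne hj _ _
  have hyG : ∀ j, y j ∈ Gd ∧ y j ∉ FV := by
    intro j
    by_cases hj : j = j₀
    · rw [hj, hy0]; exact ⟨hx₀, hx₀F⟩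
    · rw [hy1 j hj]; exact ⟨(mem_filter.1 (he' j).1).1, (he' j).2.2⟩
  have hyinj : ∀ j j', j ≠ j' → y j ≠ y j' := by
    intro j j' hne
    by_cases hj : j = j₀
    · rw [hj, hy0, hy1 j' (fun h => hne (hj.trans h.symm))]
      exact (he' j').2.1.symm
    · by_cases hj' : j' = j₀
      · rw [hj', hy0, hy1 j hj]; exact (he' j).2.1
      · rw [hy1 j hj, hy1 j' hj']; exact fun h => hne (e.injective h)
  set F₀ := FV ∪ univ.image y with hF₀
  have hF₀c : F₀.card ≤ L + gg * s := by
    refine (card_union_le _ _).trans (add_le_add hFV (card_image_le.trans ?_))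
    simp
  have hyF : ∀ j, y j ∈ F₀ := fun j => mem_union_right _ (mem_image.2 ⟨j, mem_univ _, rfl⟩)
  obtain ⟨A, Γ, hA1, hA2, hA3⟩ := exists_conns (π := π) X Gd R y b f F₀ FC hyF
    (by rw [hcard]; nlinarith) (by rw [hcard]; nlinarith) (univ.erase j₀) (by
      intro j hj FV' FC' hyj hFV' hFC'
      have hjne := ne_of_mem_erase hj
      refine exists_conn hL X Gd R hG (y j) a f (l + 3) h t q hh ht hq hdef (by omega) ?_ FV' FC'
        hyj hFV' (by omega)
      intro FV'' FC'' hV'' hC'' x hx hxy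
      refine short_path hL X Gd R hG K Λ a n₀ f g l hΛ hN hdef hexp h1 h2 h3 h4 FV'' FC'' hV'' hC''
        x hx (y j) hxy ?_
      rw [hy1 j hjne]
      exact (mem_filter.1 (he' j).1).2)
  set Y := Gd \ (F₀ ∪ univ.biUnion A) with hY
  set R' := R \ (FC ∪ univ.biUnion Γ) with hR'
  have e1 : (univ.biUnion A).card ≤ gg * s * b := by
    rw [← hcard]; exact card_biUnion_le_card_mul _ _ _ fun j _ => (hA1 j).2.2.1
  have e2 : (univ.biUnion Γ).card ≤ gg * s * b := by
    rw [← hcard]; exact card_biUnion_le_card_mul _ _ _ fun j _ => (hA1 j).2.2.2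
  have hdefY : ∀ x ∈ Gd, deg π x R' Yᶜ ≤ a + f := by
    intro x hx
    have e3 : deg π x R' Yᶜ ≤ deg π x R' Gdᶜ + deg π x R' (F₀ ∪ univ.biUnion A) := by
      refine deg_le_add _ _ fun w hw => ?_
      simp only [hY, mem_compl, mem_sdiff] at hw ⊢
      tauto
    have e4 : deg π x R' Gdᶜ ≤ a := (deg_mono _ sdiff_subset Subset.rfl).trans (hdef x hx)
    have e5 := deg_le_card hL x R' (F₀ ∪ univ.biUnion A)
    have e6 := card_union_le F₀ (univ.biUnion A)
    nlinarith
  have hR'c : R.card ≤ R'.card + f := by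
    have e3 : R.card - (FC ∪ univ.biUnion Γ).card ≤ R'.card := le_card_sdiff _ R
    have e4 := card_union_le FC (univ.biUnion Γ)
    have e5 : FC.card + (univ.biUnion Γ).card ≤ f := by nlinarith
    omega
  obtain ⟨p, hp, hpN⟩ := exists_forest hL gg s hgg y Y R' (a + f)
    (fun x hx => hdefY x (mem_sdiff.1 hx).1) (fun j => hdefY _ (hyG j).1) N qb Δ h7 (by omega) h9
  have hpV := hp.mem_vert
  have hpC := hp.mem_col
  have htl : ∀ j, ∀ v ∈ tl π (y j) (p j), v ∈ Gd ∧ v ∉ FV ∧ (∀ i, v ≠ y i) ∧ ∀ i, v ∉ A i := by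
    intro j v hv
    have := mem_sdiff.1 (hpV j v hv)
    refine ⟨this.1, fun h' => this.2 (mem_union_left _ (mem_union_left _ h')),
      fun i h' => this.2 (mem_union_left _ (h' ▸ hyF i)),
      fun i h' => this.2 (mem_union_right _ (mem_biUnion.2 ⟨i, mem_univ _, h'⟩))⟩
  have hcl : ∀ j, ∀ c ∈ p j, c ∈ R ∧ c ∉ FC ∧ ∀ i, c ∉ Γ i := by
    intro j c hc
    have := mem_sdiff.1 (hpC j c hc)
    exact ⟨this.1, fun h' => this.2 (mem_union_left _ h'),
      fun i h' => this.2 (mem_union_right _ (mem_biUnion.2 ⟨i, mem_univ _, h'⟩))⟩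
  have hAy : ∀ j i, y i ∉ A j := fun j i h' => (mem_sdiff.1 ((hA1 j).1 h')).2 (hyF i)
  have hP : ∀ j, Pth π (y j) (p j) {v | v ∈ tl π (y j) (p j)} {c | c ∈ p j} := fun j =>
    ⟨hp.nodup_col.1 j, hp.nodup_vert.1 j, fun h' => (htl j _ h').2.2.1 j rfl, fun _ h' => h',
      fun _ h' => h'⟩
  have hend : ∀ j, endp π (y j) (p j) ∈ Gd := by
    intro j
    rcases endp_mem π (y j) (p j) with h' | h'
    · rw [h']; exact (hyG j).1
    · exact (htl j _ h').1
  obtain ⟨cs, hcs, hlen⟩ := concat_blocks (π := π) Gd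
    (fun j => {v | v ∈ A j ∨ v = y j ∨ v ∈ tl π (y j) (p j)})
    (fun j => {c | c ∈ Γ j ∨ c ∈ p j}) (fun j => (p j).length) x₀ j₀
    (by
      rintro j j' hne v (hv | hv | hv) (hv' | hv' | hv')
      · exact (hA3 j j' hne).1 v hv hv'
      · exact hAy j j' (hv' ▸ hv)
      · exact (htl j' v hv').2.2.2 j hv
      · exact hAy j' j (hv ▸ hv')
      · exact hyinj j j' hne (hv.symm.trans hv')
      · exact (htl j' v hv').2.2.1 j hv
      · exact (htl j v hv).2.2.2 j' hv'
      · exact (htl j v hv).2.2.1 j' hv'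
      · exact hp.nodup_vert.2 j j' hne v hv hv')
    (by
      rintro j j' hne c (hc | hc) (hc' | hc')
      · exact (hA3 j j' hne).2 c hc hc'
      · exact (hcl j' c hc').2.2 j hc
      · exact (hcl j c hc).2.2 j' hc'
      · exact hp.nodup_col.2 j j' hne c hc hc')
    (Or.inr (Or.inl hy0.symm))
    ⟨p j₀, by
      rw [← hy0]
      exact ⟨(hP j₀).mono (fun v hv => Or.inr (Or.inr hv)) fun c hc => Or.inr hc, le_rfl,
        hend j₀⟩⟩
    (by
      intro j hj x hx hxB
      simp only [Set.mem_ofPred_eq, not_or] at hxB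
      obtain ⟨cs, hc1, hc2⟩ := hA2 j (mem_erase.2 ⟨hj, mem_univ _⟩) x hx hxB.1 hxB.2.1
      have hP' := hP j
      rw [← hc2] at hP'
      refine ⟨cs ++ p j, hc1.append hP' ?_ ?_ ?_ ?_ ?_ ?_ ?_, by simp,
        by rw [endp_append, hc2]; exact hend j⟩
      · intro c hc hc'
        exact (hcl j c hc').2.2 j (hc1.cm c hc)
      · intro v hv hv'
        rw [hc2] at hv'
        rcases hc1.vm v hv with h' | h'
        · exact (htl j v hv').2.2.2 j h'
        · exact (htl j v hv').2.2.1 j h'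
      · rw [hc2]; exact hxB.2.2
      · rintro v (hv | hv)
        · exact Or.inl hv
        · exact Or.inr (Or.inl hv)
      · intro v hv
        rw [hc2] at hv
        exact Or.inr (Or.inr hv)
      · intro c hc; exact Or.inl hc
      · intro c hc; exact Or.inr hc)
  refine ⟨cs, hcs.mono ?_ ?_, by omega⟩
  · rintro v ⟨j, hv | hv | hv⟩
    · have := mem_sdiff.1 ((hA1 j).1 hv)
      exact ⟨this.1, fun h' => this.2 (mem_union_left _ h')⟩
    · rw [hv]; exact ⟨hG (hyG j).1, (hyG j).2⟩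
    · exact ⟨hG (htl j v hv).1, (htl j v hv).2.1⟩
  · rintro c ⟨j, hc | hc⟩
    · exact mem_sdiff.1 ((hA1 j).2.1 hc)
    · exact ⟨(hcl j c hc).1, (hcl j c hc).2.1⟩

lemma exists_root (w₀ r : ℕ) (h : w₀ ^ 4 ≤ r) : ∃ w, w₀ ≤ w ∧ w ^ 4 ≤ r ∧ r < (w + 1) ^ 4 := by
  classical
  have hex : ∃ w, r < (w + 1) ^ 4 := ⟨r, by
    calc r < r + 1 := Nat.lt_succ_self r
      _ ≤ (r + 1) ^ 4 := Nat.le_self_pow (by norm_num) _⟩
  have h1 := Nat.find_spec hex
  refine ⟨Nat.find hex, ?_, ?_, h1⟩
  · have := lt_of_pow_lt_pow_left₀ 4 (Nat.zero_le _) (lt_of_le_of_lt h h1)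
    omega
  · rcases Nat.eq_zero_or_pos (Nat.find hex) with h0 | h0
    · rw [h0]; simp
    · have := Nat.find_min hex (m := Nat.find hex - 1) (by omega)
      rw [Nat.sub_add_cancel h0] at this
      omega

/-- choice of the numerical parameters -/
lemma dense_params (E : ℕ) (hE : 0 < E) (H : ℕ) (hH : H = 100 * E) (K : ℕ) (hK0 : 0 < K)
    (Λ : ℕ) (hΛ0 : 0 < Λ) (L : ℕ) : ∃ r₀ : ℕ, 40 ≤ r₀ ∧ ∀ r, r₀ ≤ r →
    ∃ f g l h t q gg s N qb Δ : ℕ,
      Λ * (f * (K + 1) + 2 + (3 * l + 7) * K + g) ≤ r / 10 ∧ K * r < g * l ∧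
      2 * (3 * r / H + 2 * f + 2) ≤ r ∧ 4 * (f * (K + 1) + 2 + (3 * l + 7) * K + r / 10) ≤ r ∧
      4 * (3 * r / H) ≤ r ∧ K * r < 2 ^ h ∧ 0 < t ∧ K * r ≤ q * t ∧ 0 < gg ∧ 0 < s ∧
      L + gg * s + (gg * s + 1) * (2 * h * t + (l + 3 + 1) * (q * h)) ≤ f ∧
      N ≤ gg * qb ∧ N + (3 * r / H + f) + qb + Δ + f ≤ r ∧ N ≤ s * Δ ∧ E * r ≤ E * N + r := by
  have hH0 : 100 ≤ H := by omega
  obtain ⟨l, hl⟩ : ∃ l, l = 80 * Λ * K := ⟨_, rfl⟩
  obtain ⟨M, hM⟩ : ∃ M, M = 40 * Λ * (K + 1) * H := ⟨_, rfl⟩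
  have hM0 : 0 < M := by
    have : 0 < H := by omega
    rw [hM]; positivity
  obtain ⟨c₁, hc₁⟩ : ∃ c₁, c₁ = (K + 4) * (2 + (l + 4) * K) := ⟨_, rfl⟩
  obtain ⟨c₂, hc₂⟩ : ∃ c₂, c₂ = L + H * (4 * E) + (H * (4 * E) + 1) * (8 * c₁) := ⟨_, rfl⟩
  obtain ⟨c₃, hc₃⟩ : ∃ c₃, c₃ = 40 * Λ * (2 + (3 * l + 7) * K) := ⟨_, rfl⟩
  obtain ⟨w₀, hw₀⟩ : ∃ w₀, w₀ = M * c₂ + c₃ + 40 * Λ + 10 * E + 40 := ⟨_, rfl⟩
  refine ⟨w₀ ^ 4, le_trans (by omega) (Nat.le_self_pow (by norm_num) w₀), fun r hr => ?_⟩
  obtain ⟨w, hw0, hw1, hw2⟩ := exists_root _ _ hr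
  have hw : 1 ≤ w := by omega
  have hwr : w ≤ r := (Nat.le_self_pow (by norm_num) _).trans hw1
  have b1 : M * c₂ ≤ w := by omega
  have b2 : c₃ ≤ r := by omega
  have b3 : 40 * Λ ≤ r := by omega
  have b4 : 10 * E + 40 ≤ r := by omega
  clear hr hw0 hw₀ w₀
  obtain ⟨a, ha⟩ : ∃ a, a = 3 * r / H := ⟨_, rfl⟩
  obtain ⟨f, hf⟩ : ∃ f, f = r / M := ⟨_, rfl⟩
  obtain ⟨g, hg⟩ : ∃ g, g = r / (40 * Λ) := ⟨_, rfl⟩
  obtain ⟨e, he⟩ : ∃ e, e = r / E := ⟨_, rfl⟩
  obtain ⟨qb, hqb⟩ : ∃ qb, qb = r / H := ⟨_, rfl⟩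
  obtain ⟨D, hD⟩ : ∃ D, D = r / (4 * E) := ⟨_, rfl⟩
  have ha1 : H * a ≤ 3 * r := by rw [ha]; exact Nat.mul_div_le _ _
  have ha2 : 100 * a ≤ 3 * r := (Nat.mul_le_mul_right _ hH0).trans ha1
  have hf1 : M * f ≤ r := by rw [hf]; exact Nat.mul_div_le _ _
  have hf2 : 40 * (Λ * (f * (K + 1))) ≤ r := by
    refine le_trans ?_ hf1
    rw [hM]
    calc 40 * (Λ * (f * (K + 1))) = 40 * Λ * (K + 1) * f * 1 := by ring
      _ ≤ 40 * Λ * (K + 1) * f * H := Nat.mul_le_mul_left _ (le_trans (by norm_num) hH0)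
      _ = _ := by ring
  have hf3 : H * f ≤ r := by
    refine le_trans ?_ hf1
    rw [hM]
    calc H * f = 1 * (H * f) := by ring
      _ ≤ (40 * Λ * (K + 1)) * (H * f) :=
        Nat.mul_le_mul_right _ (Nat.succ_le_of_lt (by positivity))
      _ = _ := by ring
  have hf4 : 100 * f ≤ r := (Nat.mul_le_mul_right _ hH0).trans hf3
  have hg1 : 40 * (Λ * g) ≤ r := by
    rw [hg, ← mul_assoc]; exact Nat.mul_div_le _ _
  have hg2 : r < 40 * Λ * (g + 1) := by
    rw [hg]; exact Nat.lt_mul_div_succ _ (by positivity)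
  have hg3 : 1 ≤ g := by
    rw [hg, Nat.le_div_iff_mul_le (by positivity), one_mul]; exact b3
  have he1 : E * e ≤ r := by rw [he]; exact Nat.mul_div_le _ _
  have he2 : r < E * (e + 1) := by rw [he]; exact Nat.lt_mul_div_succ _ hE
  have e0 : e ≤ r := by rw [he]; exact Nat.div_le_self _ _
  have hc₃r : 40 * (Λ * (2 + (3 * l + 7) * K)) ≤ r := by
    rw [← mul_assoc, ← hc₃]; exact b2
  have hq2 : r < H * (qb + 1) := by rw [hqb]; exact Nat.lt_mul_div_succ _ (by omega)
  have hq1 : H * qb ≤ r := by rw [hqb]; exact Nat.mul_div_le _ _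
  have hD2 : r < 4 * E * (D + 1) := by rw [hD]; exact Nat.lt_mul_div_succ _ (by positivity)
  have hD1 : 4 * E * D ≤ r := by rw [hD]; exact Nat.mul_div_le _ _
  have hfin : L + H * (4 * E) + (H * (4 * E) + 1) * (2 * (K + 4 * (w + 1)) * (w + 1) ^ 2 +
      (l + 3 + 1) * (K * (w + 1) ^ 2 * (K + 4 * (w + 1)))) ≤ f := by
    rw [hf, Nat.le_div_iff_mul_le hM0]
    have e1 : K + 4 * (w + 1) ≤ (K + 4) * (w + 1) := by
      have : K * 1 ≤ K * (w + 1) := Nat.mul_le_mul_left _ (Nat.le_add_left _ _)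
      calc K + 4 * (w + 1) = K * 1 + 4 * (w + 1) := by ring
        _ ≤ K * (w + 1) + 4 * (w + 1) := Nat.add_le_add_right this _
        _ = _ := by ring
    have e2 : (w + 1) ^ 3 ≤ (2 * w) ^ 3 :=
      Nat.pow_le_pow_left (by rw [two_mul]; exact Nat.add_le_add_left hw _) 3
    have e3 : 2 * (K + 4 * (w + 1)) * (w + 1) ^ 2 +
        (l + 3 + 1) * (K * (w + 1) ^ 2 * (K + 4 * (w + 1))) ≤ 8 * c₁ * w ^ 3 := by
      calc 2 * (K + 4 * (w + 1)) * (w + 1) ^ 2 +
          (l + 3 + 1) * (K * (w + 1) ^ 2 * (K + 4 * (w + 1)))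
          = (K + 4 * (w + 1)) * ((2 + (l + 4) * K) * (w + 1) ^ 2) := by ring
        _ ≤ ((K + 4) * (w + 1)) * ((2 + (l + 4) * K) * (w + 1) ^ 2) :=
          Nat.mul_le_mul_right _ e1
        _ = c₁ * (w + 1) ^ 3 := by rw [hc₁]; ring
        _ ≤ c₁ * (2 * w) ^ 3 := Nat.mul_le_mul_left _ e2
        _ = 8 * c₁ * w ^ 3 := by ring
    have e4 : 1 ≤ w ^ 3 := Nat.one_le_pow _ _ hw
    have e5 : L + H * (4 * E) + (H * (4 * E) + 1) * (2 * (K + 4 * (w + 1)) * (w + 1) ^ 2 +
        (l + 3 + 1) * (K * (w + 1) ^ 2 * (K + 4 * (w + 1)))) ≤ c₂ * w ^ 3 := by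
      have e6 := Nat.mul_le_mul_left (H * (4 * E) + 1) e3
      have e7 : L + H * (4 * E) ≤ (L + H * (4 * E)) * w ^ 3 := Nat.le_mul_of_pos_right _ e4
      calc _ ≤ (L + H * (4 * E)) * w ^ 3 + (H * (4 * E) + 1) * (8 * c₁ * w ^ 3) :=
            Nat.add_le_add e7 e6
        _ = c₂ * w ^ 3 := by rw [hc₂]; ring
    calc _ ≤ c₂ * w ^ 3 * M := Nat.mul_le_mul_right _ e5
      _ = (M * c₂) * w ^ 3 := by ring
      _ ≤ w * w ^ 3 := Nat.mul_le_mul_right _ b1
      _ = w ^ 4 := by ring
      _ ≤ r := hw1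
  have hpow : K * r < 2 ^ (K + 4 * (w + 1)) := by
    have e1 : K < 2 ^ K := Nat.lt_two_pow_self
    have e2 : w + 1 < 2 ^ (w + 1) := Nat.lt_two_pow_self
    have e3 : (w + 1) ^ 4 ≤ (2 ^ (w + 1)) ^ 4 := Nat.pow_le_pow_left e2.le 4
    calc K * r < 2 ^ K * (2 ^ (w + 1)) ^ 4 := Nat.mul_lt_mul'' e1 (lt_of_lt_of_le hw2 e3)
      _ = 2 ^ (K + 4 * (w + 1)) := by rw [← pow_mul, ← pow_add, mul_comm (w + 1) 4]
  have hqt : K * r ≤ K * (w + 1) ^ 2 * (w + 1) ^ 2 := by
    calc K * r ≤ K * (w + 1) ^ 4 := Nat.mul_le_mul_left _ hw2.le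
      _ = _ := by ring
  have hgl : K * r < g * l := by
    rw [hl]
    have e1 : 40 * Λ * (g + 1) ≤ 40 * Λ * (g + g) := Nat.mul_le_mul_left _ (by omega)
    have : r < 80 * Λ * g := by
      calc r < 40 * Λ * (g + g) := lt_of_lt_of_le hg2 e1
        _ = _ := by ring
    calc K * r < K * (80 * Λ * g) := Nat.mul_lt_mul_of_pos_left this hK0
      _ = _ := by ring
  rw [← ha]
  clear ha hf hg he hqb hD hc₁ hc₂ hc₃ hM hl hw1 hw2 b1 b2 hf1 hg2
  have h1 : Λ * (f * (K + 1) + 2 + (3 * l + 7) * K + g) ≤ r / 10 := by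
    have : Λ * (f * (K + 1) + 2 + (3 * l + 7) * K + g) =
        Λ * (f * (K + 1)) + Λ * (2 + (3 * l + 7) * K) + Λ * g := by ring
    rw [this]
    clear this hfin hpow hqt
    omega
  have h1' : f * (K + 1) + 2 + (3 * l + 7) * K + g ≤ r / 10 :=
    le_trans (Nat.le_mul_of_pos_left _ hΛ0) h1
  have h8 : a + f + (qb + 1) + (D + 1) + f ≤ e := by
    have e2 : H * (a + f + (qb + 1) + (D + 1) + f) ≤ H * e := by
      have e3 : H * D = 25 * (4 * E * D) := by rw [hH]; ring
      have e4 : H * e = 100 * (E * e) := by rw [hH]; ring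
      have e5 : E * (e + 1) = E * e + E := by ring
      have e6 : H * (a + f + (qb + 1) + (D + 1) + f) =
        H * a + H * f + H * qb + H + H * D + H + H * f := by ring
      clear hfin hpow hqt h1 h1'
      omega
    exact Nat.le_of_mul_le_mul_left e2 (by omega)
  have h9 : E * r ≤ E * (r - e) + r := by
    have e1 : E * r = E * (r - e) + E * e := by rw [← mul_add, Nat.sub_add_cancel e0]
    rw [e1]; exact Nat.add_le_add_left he1 _
  refine ⟨f, g, l, K + 4 * (w + 1), (w + 1) ^ 2, K * (w + 1) ^ 2, H, 4 * E, r - e, qb + 1, D + 1,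
    h1, hgl, ?_, ?_, ?_, hpow, by positivity, hqt, ?_, ?_, hfin, ?_, ?_, ?_, h9⟩
  all_goals
    clear hfin hpow hqt h1 h9
    omega

/-- The dense lemma. -/
theorem dense (E : ℕ) (hE : 0 < E) : ∃ G : ℕ, 0 < G ∧ ∀ K L : ℕ, ∃ r₀ : ℕ,
    ∀ (V C : Type) [Fintype V] [DecidableEq V] [DecidableEq C] (π : C → Equiv.Perm V),
      (∀ x, Function.Injective fun c => π c x) → ∀ (R : Finset C) (W : Finset V),
      r₀ ≤ R.card → R.card ≤ 10 * W.card → W.card ≤ K * R.card →
      G * ∑ x ∈ W, deg π x R Wᶜ ^ 2 ≤ R.card ^ 3 →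
      ∃ x₀ ∈ W, ∀ (FV : Finset V) (FC : Finset C), FV.card ≤ L → FC.card ≤ L → x₀ ∉ FV →
        ∃ cs, Pth π x₀ cs {v | v ∈ W ∧ v ∉ FV} {c | c ∈ R ∧ c ∉ FC} ∧
          E * R.card ≤ E * cs.length + R.card := by
  obtain ⟨H, hH⟩ : ∃ H, H = 100 * E := ⟨_, rfl⟩
  have hH0 : 100 ≤ H := by omega
  have hH1 : 0 < H := by omega
  refine ⟨2 * H ^ 3, by positivity, fun K₀ L => ?_⟩
  obtain ⟨K, hK⟩ : ∃ K, K = K₀ + 1 := ⟨_, rfl⟩
  have hK0 : 0 < K := by omega
  obtain ⟨Λ, hΛ⟩ : ∃ Λ, Λ = 2 * H ^ 2 * K := ⟨_, rfl⟩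
  have hΛ0 : 0 < Λ := by rw [hΛ]; positivity
  obtain ⟨r₀, hr₀, hpar⟩ := dense_params E hE H hH K hK0 Λ hΛ0 L
  refine ⟨r₀, ?_⟩
  intro V C _ _ _ π hL R W hr hW1 hW2 hdef
  classical
  obtain ⟨f, g, l, h, t, q, gg, s, N, qb, Δ, p1, p2, p3, p4, p5, p6, p7, p8, p9, p10, p11, p12,
    p13, p14, p15⟩ := hpar _ hr
  clear hpar
  obtain ⟨r, hrdef⟩ : ∃ r, r = R.card := ⟨_, rfl⟩
  rw [← hrdef] at hr hW1 hW2 hdef
  have hr0 : 40 ≤ r := hr₀.trans hr
  have hr1 : 0 < r := lt_of_lt_of_le (by norm_num) hr0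
  have hWK : W.card ≤ K * r := hW2.trans (Nat.mul_le_mul_right _ (hK ▸ Nat.le_succ _))
  obtain ⟨X, hXW, hXn, hleak, hexp⟩ := exists_piece (π := π) W R Λ (r / 10)
    (Nat.div_le_of_le_mul hW1)
  rw [← hrdef] at hleak
  set B₀ := X.filter fun x => r < H * deg π x R Wᶜ with hB₀
  set B₁ := X.filter fun x => r < H * deg π x R (W \ X) with hB₁
  have hB₀c : 2 * H * B₀.card ≤ r := by
    have e1 : ∑ _x ∈ B₀, r ^ 2 ≤ ∑ x ∈ B₀, H ^ 2 * deg π x R Wᶜ ^ 2 := by
      refine sum_le_sum fun x hx => ?_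
      rw [← mul_pow]
      exact Nat.pow_le_pow_left (mem_filter.1 hx).2.le 2
    rw [sum_const, smul_eq_mul, ← mul_sum] at e1
    have e2 : ∑ x ∈ B₀, deg π x R Wᶜ ^ 2 ≤ ∑ x ∈ W, deg π x R Wᶜ ^ 2 :=
      sum_le_sum_of_subset ((filter_subset _ _).trans hXW)
    have e3 : (2 * H * B₀.card) * r ^ 2 ≤ r * r ^ 2 := by
      calc (2 * H * B₀.card) * r ^ 2 = 2 * H * (B₀.card * r ^ 2) := by ring
        _ ≤ 2 * H * (H ^ 2 * ∑ x ∈ W, deg π x R Wᶜ ^ 2) :=
          Nat.mul_le_mul_left _ (e1.trans (Nat.mul_le_mul_left _ e2))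
        _ = 2 * H ^ 3 * ∑ x ∈ W, deg π x R Wᶜ ^ 2 := by ring
        _ ≤ r ^ 3 := hdef
        _ = r * r ^ 2 := by ring
    exact Nat.le_of_mul_le_mul_right e3 (by positivity)
  have hB₁c : 2 * H * B₁.card ≤ r := by
    have e1 : ∑ _x ∈ B₁, r ≤ ∑ x ∈ B₁, H * deg π x R (W \ X) :=
      sum_le_sum fun x hx => (mem_filter.1 hx).2.le
    rw [sum_const, smul_eq_mul, ← mul_sum] at e1
    have e2 : ∑ x ∈ B₁, deg π x R (W \ X) ≤ ∑ x ∈ X, deg π x R (W \ X) :=
      sum_le_sum_of_subset (filter_subset _ _)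
    have e3 : (2 * H * B₁.card) * (H * K * r) ≤ r * (H * K * r) := by
      calc (2 * H * B₁.card) * (H * K * r) = Λ * (B₁.card * r) := by rw [hΛ]; ring
        _ ≤ Λ * (H * ∑ x ∈ X, deg π x R (W \ X)) :=
          Nat.mul_le_mul_left _ (e1.trans (Nat.mul_le_mul_left _ e2))
        _ = H * (Λ * ∑ x ∈ X, deg π x R (W \ X)) := by ring
        _ ≤ H * (r * (K * r)) :=
          Nat.mul_le_mul_left _ (hleak.trans (Nat.mul_le_mul_left _ hWK))
        _ = r * (H * K * r) := by ring
    exact Nat.le_of_mul_le_mul_right e3 (by positivity)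
  have hBc : H * (B₀ ∪ B₁).card ≤ r := by
    have := Nat.mul_le_mul_left H (card_union_le B₀ B₁)
    rw [mul_add] at this
    rw [mul_assoc] at hB₀c hB₁c
    clear * - this hB₀c hB₁c
    omega
  set Gd := X \ (B₀ ∪ B₁) with hGd
  have hGX : Gd ⊆ X := sdiff_subset
  have hGdef : ∀ x ∈ Gd, deg π x R Gdᶜ ≤ 3 * r / H := by
    intro x hx
    rw [Nat.le_div_iff_mul_le hH1]
    have e1 : deg π x R Gdᶜ ≤ deg π x R (Wᶜ ∪ (W \ X)) + deg π x R (B₀ ∪ B₁) := by
      refine deg_le_add _ _ fun v hv => ?_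
      simp only [hGd, mem_compl, mem_sdiff, mem_union] at hv ⊢
      tauto
    have e2 : deg π x R (Wᶜ ∪ (W \ X)) ≤ deg π x R Wᶜ + deg π x R (W \ X) :=
      deg_le_add _ _ fun v hv => mem_union.1 hv
    have e3 := deg_le_card hL x R (B₀ ∪ B₁)
    have hx' := mem_sdiff.1 hx
    have e4 : H * deg π x R Wᶜ ≤ r := by
      by_contra h'
      exact hx'.2 (mem_union_left _ (mem_filter.2 ⟨hx'.1, not_le.1 h'⟩))
    have e5 : H * deg π x R (W \ X) ≤ r := by
      by_contra h'
      exact hx'.2 (mem_union_right _ (mem_filter.2 ⟨hx'.1, not_le.1 h'⟩))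
    have e6 : H * deg π x R Gdᶜ ≤
        H * (deg π x R Wᶜ + deg π x R (W \ X) + (B₀ ∪ B₁).card) :=
      Nat.mul_le_mul_left _ (e1.trans (Nat.add_le_add e2 e3))
    rw [mul_add, mul_add] at e6
    rw [mul_comm]
    clear * - e4 e5 e6 hBc
    omega
  have hGne : Gd.Nonempty := by
    rw [← card_pos]
    have e1 : X.card - (B₀ ∪ B₁).card ≤ Gd.card := le_card_sdiff _ _
    have e2 : 100 * (B₀ ∪ B₁).card ≤ H * (B₀ ∪ B₁).card := Nat.mul_le_mul_right _ hH0
    clear * - e1 e2 hBc hXn hr0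
    omega
  obtain ⟨x₀, hx₀⟩ := hGne
  refine ⟨x₀, hXW (hGX hx₀), fun FV FC hFV hFC hx₀F => ?_⟩
  have hGc : Gd.card ≤ K * r := (card_le_card (hGX.trans hXW)).trans hWK
  subst hrdef
  obtain ⟨cs, hcs, hlen⟩ := dense_core hL X Gd R hGX K Λ (3 * R.card / H) (R.card / 10) f g l hΛ0
    ((card_le_card hXW).trans hWK) hGdef hexp p1 p2 p3 p4 p5 h t q (lt_of_le_of_lt hGc p6) p7
    (hGc.trans p8) L gg s p9 p10 p11 N qb Δ p12 p13 p14 x₀ hx₀ FV FC hFV hFC hx₀F
  exact ⟨cs, hcs.mono (fun v hv => ⟨hXW hv.1, hv.2⟩) fun c hc => hc,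
    p15.trans (Nat.add_le_add_right (Nat.mul_le_mul_left _ hlen) _)⟩

end Pool.Agent.P.MP_0c87c4_co.Asym
end

-- part Pool.Agent.P.MP_0c87c4_co.ASparse
section

/-!
# The sparse case: cheap blocks
-/

set_option linter.unusedSectionVars false

namespace Pool.Agent.P.MP_0c87c4_co.Asym

open Finset

variable {V C : Type*} (π : C → Equiv.Perm V) [DecidableEq V] [DecidableEq C] [Fintype V]
  [Fintype C]

/-- second moment of the number of out-neighbours in `P` -/
def Phi (P : Finset V) : ℕ := ∑ w, deg π w univ P ^ 2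

/-- the price of visiting `u` -/
def om (P : Finset V) (u : V) : ℕ := ∑ c, deg π ((π c).symm u) univ P

/-- vertices from which one is forced into `B` within `j` steps -/
def trap (R : Finset C) (B : Finset V) : ℕ → Finset V
  | 0 => B
  | j + 1 => B ∪ univ.filter fun x => R.card ≤ 2 * deg π x R (trap R B j)

/-- the number of vertices of the walk lying in `B` -/
def cost (B : Finset V) (v : V) (q : List C) : ℕ := ((tl π v q).toFinset ∩ B).card

variable {π}

lemma om_le (P : Finset V) (u : V) : om π P u ≤ Fintype.card C ^ 2 := by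
  unfold om
  calc _ ≤ ∑ _c : C, Fintype.card C := sum_le_sum fun c _ => deg_le_col _ _ _
    _ = _ := by simp [sq]

lemma sum_om_le (P : Finset V) : ∑ u, om π P u ≤ Fintype.card C ^ 2 * P.card := by
  unfold om
  rw [sum_comm]
  calc ∑ c, ∑ u, deg π ((π c).symm u) univ P = ∑ _c : C, ∑ w, deg π w univ P :=
        sum_congr rfl fun c _ => Equiv.sum_comp (π c).symm fun w => deg π w univ P
    _ ≤ ∑ _c : C, P.card * Fintype.card C := sum_le_sum fun c _ => sum_deg_le _ _ _
    _ = _ := by simp; ring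

lemma Phi_union (hL : ∀ x, Function.Injective fun c => π c x) (P Q : Finset V) (M : ℕ)
    (hQ : Q.card ≤ M) :
    Phi π (P ∪ Q) ≤ Phi π P + 2 * ∑ u ∈ Q, om π P u + M * (Q.card * Fintype.card C) := by
  have h1 : ∑ w, deg π w univ P * deg π w univ Q = ∑ u ∈ Q, om π P u := by
    have e1 : ∀ w, deg π w univ P * deg π w univ Q =
        ∑ c, if π c w ∈ Q then deg π w univ P else 0 := by
      intro w
      rw [← sum_filter, sum_const, smul_eq_mul, mul_comm]
      rfl
    simp only [e1]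
    unfold om
    rw [sum_comm, sum_comm (s := Q)]
    refine sum_congr rfl fun c _ => ?_
    rw [← Equiv.sum_comp (π c).symm]
    simp only [Equiv.apply_symm_apply]
    rw [← sum_filter, filter_mem_eq_inter, univ_inter]
  have h2 : ∑ w, deg π w univ Q ≤ Q.card * Fintype.card C := sum_deg_le _ _ _
  have h3 : ∀ w, deg π w univ (P ∪ Q) ^ 2 ≤
      deg π w univ P ^ 2 + 2 * (deg π w univ P * deg π w univ Q) + M * deg π w univ Q := by
    intro w
    have e1 : deg π w univ (P ∪ Q) ≤ deg π w univ P + deg π w univ Q :=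
      deg_le_add _ _ fun v hv => mem_union.1 hv
    have e2 : deg π w univ Q ≤ M := (deg_le_card hL _ _ _).trans hQ
    have e3 := Nat.pow_le_pow_left e1 2
    have e4 := Nat.mul_le_mul_right (deg π w univ Q) e2
    nlinarith
  unfold Phi
  refine (sum_le_sum fun w _ => h3 w).trans ?_
  rw [sum_add_distrib, sum_add_distrib, ← mul_sum, ← mul_sum, h1]
  exact Nat.add_le_add_left (Nat.mul_le_mul_left _ h2) _

lemma subset_trap (R : Finset C) (B : Finset V) (j : ℕ) : B ⊆ trap π R B j := by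
  cases j with
  | zero => exact Subset.rfl
  | succ j => exact subset_union_left

lemma card_trap (R : Finset C) (hR : 0 < R.card) (B : Finset V) (j : ℕ) :
    (trap π R B j).card + B.card ≤ 2 ^ (j + 1) * B.card := by
  induction j with
  | zero => simp [trap]; omega
  | succ j ih =>
    set S := univ.filter fun x => R.card ≤ 2 * deg π x R (trap π R B j) with hS
    have e1 : ∑ _x ∈ S, R.card ≤ ∑ x ∈ S, 2 * deg π x R (trap π R B j) :=
      sum_le_sum fun x hx => (mem_filter.1 hx).2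
    rw [sum_const, smul_eq_mul, ← mul_sum] at e1
    have e2 := sum_deg_le (π := π) S R (trap π R B j)
    have e3 : S.card * R.card ≤ (2 * (trap π R B j).card) * R.card := by nlinarith
    have e4 := Nat.le_of_mul_le_mul_right e3 hR
    have e5 : (trap π R B (j + 1)).card ≤ B.card + S.card := card_union_le _ _
    rw [pow_succ, mul_comm _ 2, mul_assoc]
    omega

lemma cost_snoc_le (B : Finset V) (v : V) (q : List C) (c : C) :
    cost π B v (q ++ [c]) ≤ cost π B v q + 1 := by
  unfold cost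
  rw [tl_snoc, List.toFinset_append, union_inter_distrib_right]
  refine (card_union_le _ _).trans (Nat.add_le_add_left ?_ _)
  exact (card_le_card inter_subset_left).trans (by simp)

lemma cost_snoc_of_notMem (B : Finset V) (v : V) (q : List C) (c : C)
    (h : π c (endp π v q) ∉ B) : cost π B v (q ++ [c]) ≤ cost π B v q := by
  unfold cost
  rw [tl_snoc]
  refine card_le_card fun w hw => ?_
  simp only [List.toFinset_append, mem_inter, mem_union, List.mem_toFinset,
    List.mem_singleton] at hw ⊢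
  rcases hw with ⟨hw | rfl, hB⟩
  · exact ⟨hw, hB⟩
  · exact absurd hB h

/-- the number of moves from the end of a short path which keep it a rainbow path -/
lemma deg_le_valid (hL : ∀ x, Function.Injective fun c => π c x) (R : Finset C) (P S N : Finset V)
    (v : V) (hv : v ∈ P) (hS : ∀ w ∈ S, w ∉ P) (q : List C)
    (hq : Pth π v q {w | w ∉ P} {c | c ∈ R})
    (hN : ∀ c, π c (endp π v q) ∈ S → Pth π v (q ++ [c]) {w | w ∉ P} {c | c ∈ R} →
      π c (endp π v q) ∈ N) :
    deg π (endp π v q) R S ≤ 2 * q.length + deg π (endp π v q) R N := by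
  set u := endp π v q with hu
  have hsub : (R.filter fun c => π c u ∈ S) ⊆ q.toFinset ∪
      (R.filter fun c => π c u ∈ (tl π v q).toFinset) ∪ R.filter fun c => π c u ∈ N := by
    intro c hc
    by_contra hno
    simp only [mem_union, mem_filter, not_or, not_and, List.mem_toFinset] at hc hno
    obtain ⟨⟨n1, n2⟩, n3⟩ := hno
    refine n3 hc.1 (hN c hc.2 (hq.snoc hc.1 n1 (hS _ hc.2) (n2 hc.1) ?_))
    intro h
    exact hS _ hc.2 (h ▸ hv)
  have e1 := List.toFinset_card_le q
  have e2 : (R.filter fun c => π c u ∈ (tl π v q).toFinset).card ≤ q.length :=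
    (deg_le_card hL u R _).trans ((List.toFinset_card_le _).trans (by simp))
  have e3 := card_union_le q.toFinset (R.filter fun c => π c u ∈ (tl π v q).toFinset)
  refine (card_le_card hsub).trans ((card_union_le _ _).trans ?_)
  exact Nat.add_le_add_right (by omega) _

lemma free_walk (hL : ∀ x, Function.Injective fun c => π c x) (R : Finset C) (P B : Finset V)
    (hPB : P ⊆ B) (v : V) (hv : v ∈ P) (j : ℕ) (q : List C)
    (hq : Pth π v q {w | w ∉ P} {c | c ∈ R}) (hend : endp π v q ∉ trap π R B (j + 1))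
    (hr : 4 * (q.length + j) ≤ R.card) :
    ∃ q', q'.length = q.length + j ∧ Pth π v q' {w | w ∉ P} {c | c ∈ R} ∧
      cost π B v q' ≤ cost π B v q ∧ endp π v q' ∉ trap π R B 1 := by
  classical
  induction j generalizing q with
  | zero => exact ⟨q, rfl, hq, le_rfl, hend⟩
  | succ j ih =>
    have h1 : 2 * deg π (endp π v q) R (trap π R B (j + 1)) < R.card := by
      by_contra h
      exact hend (mem_union_right _ (mem_filter.2 ⟨mem_univ _, not_lt.1 h⟩))
    have h2 := deg_add_compl (π := π) (endp π v q) R (trap π R B (j + 1))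
    by_contra hno
    have h3 := deg_le_valid hL R P (trap π R B (j + 1))ᶜ ∅ v hv
      (fun w hw hP => mem_compl.1 hw (subset_trap R B _ (hPB hP))) q hq (by
        intro c hc hp
        exfalso
        have hc' := mem_compl.1 hc
        obtain ⟨q', e1, e2, e3, e4⟩ := ih (q ++ [c]) hp (by rwa [endp_snoc]) (by simp; omega)
        refine hno ⟨q', by simp at e1; omega, e2, e3.trans (cost_snoc_of_notMem B v q c ?_), e4⟩
        exact fun h => hc' (subset_trap R B _ h))
    have h4 : deg π (endp π v q) R ∅ = 0 := by simp [deg]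
    omega

lemma bfs (hL : ∀ x, Function.Injective fun c => π c x) (R : Finset C) (P B : Finset V)
    (v : V) (hv : v ∈ P) (hdeg : R.card ≤ 10 * deg π v R Pᶜ) (G K M δ n k₀ : ℕ)
    (hn : n + 1 ≤ M) (hK : K * R.card < n * δ) (hB : B.card < k₀ * δ)
    (hδ : G * (2 * δ + 2 * M * K) ≤ R.card)
    (hA : ∀ W : Finset V, (∀ w ∈ W, w ∉ P ∧ ∃ q, q.length ≤ M ∧
        Pth π v q {w | w ∉ P} {c | c ∈ R} ∧ endp π v q = w) → R.card ≤ 10 * W.card →
        W.card ≤ K * R.card → R.card ^ 2 < G * ∑ x ∈ W, deg π x R (W ∪ P)ᶜ) :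
    ∃ W : Finset V, K * R.card < W.card ∧ ∀ w ∈ W, ∃ q, q.length ≤ n + 1 ∧ cost π B v q ≤ k₀ ∧
      Pth π v q {w | w ∉ P} {c | c ∈ R} ∧ endp π v q = w := by
  classical
  have key : ∀ i ≤ n, ∃ (W : Finset V) (k : ℕ), (∀ w ∈ W, w ∉ P ∧ ∃ q, q.length ≤ i + 1 ∧
      cost π B v q ≤ k + 1 ∧ Pth π v q {w | w ∉ P} {c | c ∈ R} ∧ endp π v q = w) ∧
      R.card ≤ 10 * W.card ∧ k * δ ≤ (W ∩ B).card ∧ (K * R.card < W.card ∨ i * δ ≤ W.card) := by
    intro i
    induction i with
    | zero =>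
      intro _
      refine ⟨(R.filter fun c => π c v ∈ Pᶜ).image fun c => π c v, 0, ?_, ?_, by simp,
        Or.inr (by simp)⟩
      · intro w hw
        obtain ⟨c, hc, rfl⟩ := mem_image.1 hw
        have hc' := mem_filter.1 hc
        have hP := mem_compl.1 hc'.2
        refine ⟨hP, [c], by simp, ?_, ?_, rfl⟩
        · exact (cost_snoc_le B v [] c).trans (by simp [cost])
        · exact (Pth.nil v _ _).snoc hc'.1 (by simp) hP (by simp)
            fun h => hP (by rw [show π c v = v from h]; exact hv)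
      · rwa [card_image_deg hL]
    | succ i ih =>
      intro hi
      obtain ⟨W, k, hW, h1, h2, h3⟩ := ih (by omega)
      by_cases hbig : K * R.card < W.card
      · refine ⟨W, k, fun w hw => ?_, h1, h2, Or.inl hbig⟩
        obtain ⟨hP, q, e1, e2⟩ := hW w hw
        exact ⟨hP, q, by omega, e2⟩
      have h3 := h3.resolve_left hbig
      have h4 := hA W (fun w hw => by
        obtain ⟨hP, q, e1, -, e2⟩ := hW w hw
        exact ⟨hP, q, by omega, e2⟩) h1 (not_lt.1 hbig)
      set N := (W ∪ P)ᶜ.filter fun w => ∃ q c, q.length ≤ i + 1 ∧ cost π B v q ≤ k + 1 ∧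
        Pth π v (q ++ [c]) {w | w ∉ P} {c | c ∈ R} ∧ π c (endp π v q) = w with hN
      have h5 : ∑ x ∈ W, deg π x R (W ∪ P)ᶜ ≤ ∑ x ∈ W, (2 * M + deg π x R N) := by
        refine sum_le_sum fun x hx => ?_
        obtain ⟨-, q, e1, e2, e3, rfl⟩ := hW x hx
        refine (deg_le_valid hL R P (W ∪ P)ᶜ N v hv
          (fun w hw hP => mem_compl.1 hw (mem_union_right _ hP)) q e3
          fun c hc hp => mem_filter.2 ⟨hc, q, c, e1, e2, hp, rfl⟩).trans ?_
        exact Nat.add_le_add_right (by omega) _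
      rw [sum_add_distrib, sum_const, smul_eq_mul] at h5
      have h6 := sum_deg_le (π := π) W R N
      have h7 : 2 * δ < N.card := by
        have e1 : W.card * (2 * M) ≤ K * R.card * (2 * M) :=
          Nat.mul_le_mul_right _ (not_lt.1 hbig)
        have e2 : G * ∑ x ∈ W, deg π x R (W ∪ P)ᶜ ≤
            G * (K * R.card * (2 * M) + N.card * R.card) := Nat.mul_le_mul_left _ (by omega)
        have e3 := Nat.mul_le_mul_right R.card hδ
        have e4 : (G * R.card) * (2 * δ) < (G * R.card) * N.card := by nlinarith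
        exact lt_of_mul_lt_mul_left e4 (Nat.zero_le _)
      have hNW : ∀ w ∈ N, w ∉ W ∧ w ∉ P := fun w hw => by
        have := mem_compl.1 (mem_filter.1 hw).1
        rwa [mem_union, not_or] at this
      have h8 : (N \ B).card + (N ∩ B).card = N.card := card_sdiff_add_card_inter _ _
      by_cases hfree : δ ≤ (N \ B).card
      · have hdisj : Disjoint W (N \ B) :=
          disjoint_right.2 fun w hw => (hNW w (mem_sdiff.1 hw).1).1
        have hc := card_union_of_disjoint hdisj
        refine ⟨W ∪ (N \ B), k, fun w hw => ?_, by omega, ?_, Or.inr ?_⟩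
        · rcases mem_union.1 hw with hw | hw
          · obtain ⟨hP, q, e1, e2⟩ := hW w hw
            exact ⟨hP, q, by omega, e2⟩
          · obtain ⟨hwN, hwB⟩ := mem_sdiff.1 hw
            obtain ⟨-, q, c, e1, e2, e3, rfl⟩ := mem_filter.1 hwN
            exact ⟨(hNW _ hwN).2, q ++ [c], by simp; omega,
              (cost_snoc_of_notMem B v q c hwB).trans e2, e3, endp_snoc _ _ _⟩
        · exact h2.trans (card_le_card (inter_subset_inter subset_union_left Subset.rfl))
        · rw [add_mul, one_mul]; omega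
      · have hdisj : Disjoint W (N ∩ B) :=
          disjoint_right.2 fun w hw => (hNW w (mem_inter.1 hw).1).1
        have hc := card_union_of_disjoint hdisj
        refine ⟨W ∪ (N ∩ B), k + 1, fun w hw => ?_, by omega, ?_, Or.inr ?_⟩
        · rcases mem_union.1 hw with hw | hw
          · obtain ⟨hP, q, e1, e2, e3⟩ := hW w hw
            exact ⟨hP, q, by omega, by omega, e3⟩
          · obtain ⟨hwN, hwB⟩ := mem_inter.1 hw
            obtain ⟨-, q, c, e1, e2, e3, rfl⟩ := mem_filter.1 hwN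
            exact ⟨(hNW _ hwN).2, q ++ [c], by simp; omega,
              (cost_snoc_le B v q c).trans (by omega), e3, endp_snoc _ _ _⟩
        · have e1 : (W ∩ B) ∪ (N ∩ B) ⊆ (W ∪ (N ∩ B)) ∩ B := by
            intro w hw
            simp only [mem_union, mem_inter] at hw ⊢
            tauto
          have e2 := card_le_card e1
          rw [card_union_of_disjoint (hdisj.mono_left inter_subset_left)] at e2
          rw [add_mul, one_mul]; omega
        · rw [add_mul, one_mul]; omega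
  obtain ⟨W, k, hW, -, h2, h3⟩ := key n le_rfl
  refine ⟨W, by omega, fun w hw => ?_⟩
  obtain ⟨-, q, e1, e2, e3⟩ := hW w hw
  have e4 : k * δ < k₀ * δ := lt_of_le_of_lt (h2.trans (card_le_card inter_subset_right)) hB
  have e5 : k < k₀ := lt_of_mul_lt_mul_right e4 (Nat.zero_le _)
  exact ⟨q, e1, by omega, e3⟩

/-- a cheap block -/
lemma block (hL : ∀ x, Function.Injective fun c => π c x) (R : Finset C) (P B : Finset V)
    (hPB : P ⊆ B) (v : V) (hv : v ∈ P) (hdeg : R.card ≤ 10 * deg π v R Pᶜ)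
    (G K M δ n k₀ m : ℕ) (hn : n + 1 + m ≤ M) (hK : K * R.card < n * δ) (hB : B.card < k₀ * δ)
    (hδ : G * (2 * δ + 2 * M * K) ≤ R.card) (hM : 4 * M < R.card)
    (hT : 2 ^ (m + 2) * B.card ≤ K * R.card)
    (hA : ∀ W : Finset V, (∀ w ∈ W, w ∉ P ∧ ∃ q, q.length ≤ M ∧
        Pth π v q {w | w ∉ P} {c | c ∈ R} ∧ endp π v q = w) → R.card ≤ 10 * W.card →
        W.card ≤ K * R.card → R.card ^ 2 < G * ∑ x ∈ W, deg π x R (W ∪ P)ᶜ) :
    ∃ q, m ≤ q.length ∧ q.length ≤ M ∧ cost π B v q ≤ k₀ ∧ Pth π v q {w | w ∉ P} {c | c ∈ R} ∧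
      R.card < 2 * deg π (endp π v q) R Bᶜ := by
  obtain ⟨W, hW1, hW2⟩ := bfs hL R P B v hv hdeg G K M δ n k₀ (by omega) hK hB hδ hA
  have h1 := card_trap (π := π) R (by omega) B (m + 1)
  have h2 : (trap π R B (m + 1)).card < W.card := by
    have : m + 1 + 1 = m + 2 := rfl
    rw [this] at h1
    omega
  obtain ⟨w, hwW, hwT⟩ := exists_mem_notMem_of_card_lt_card h2
  obtain ⟨q, e1, e2, e3, rfl⟩ := hW2 w hwW
  obtain ⟨q', f1, f2, f3, f4⟩ := free_walk hL R P B hPB v hv m q e3 hwT (by omega)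
  refine ⟨q', by omega, by omega, f3.trans e2, f2, ?_⟩
  have h3 : 2 * deg π (endp π v q') R B < R.card := by
    by_contra h
    exact f4 (mem_union_right _ (mem_filter.2 ⟨mem_univ _, not_lt.1 h⟩))
  have h4 := deg_add_compl (π := π) (endp π v q') R B
  omega

end Pool.Agent.P.MP_0c87c4_co.Asym
end

-- part Pool.Agent.P.MP_0c87c4_co.AMain
section

/-!
# Rainbow directed paths of length `(1 - o(1)) d`
-/

set_option linter.unusedSectionVars false

namespace Pool.Agent.P.MP_0c87c4_co.Asym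

open Finset

lemma sparse_params (E G : ℕ) (hE : 0 < E) (hG : 0 < G) (Kp : ℕ) (hKp : 0 < Kp) :
    ∃ K M n k₀ m r₁ : ℕ, n + 1 + m ≤ M ∧ Kp * k₀ ≤ m ∧ 0 < m ∧ ∀ r b : ℕ, r₁ ≤ r →
      b ≤ (Kp + 1) * E * r → ∃ δ, K * r < n * δ ∧ b < k₀ * δ ∧
        4 * G * (2 * δ + 2 * M * K) ≤ r ∧ 5 * M < r ∧ 2 ^ (m + 2) * b ≤ K * r := by
  obtain ⟨K₀, hK₀⟩ : ∃ K₀, K₀ = (Kp + 1) * E := ⟨_, rfl⟩
  have hK₀0 : 0 < K₀ := by rw [hK₀]; positivity
  obtain ⟨k₀, hk₀⟩ : ∃ k₀, k₀ = 32 * G * K₀ := ⟨_, rfl⟩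
  have hk₀0 : 0 < k₀ := by rw [hk₀]; positivity
  obtain ⟨m, hm⟩ : ∃ m, m = Kp * k₀ := ⟨_, rfl⟩
  obtain ⟨K, hK⟩ : ∃ K, K = 2 ^ (m + 2) * K₀ := ⟨_, rfl⟩
  have hK0 : 0 < K := by rw [hK]; positivity
  obtain ⟨n, hn⟩ : ∃ n, n = 32 * G * K := ⟨_, rfl⟩
  obtain ⟨M, hM⟩ : ∃ M, M = n + 1 + m := ⟨_, rfl⟩
  refine ⟨K, M, n, k₀, m, 16 * G + 16 * (G * (M * K)) + 5 * M + 1, hM.ge, hm.ge,
    by rw [hm]; positivity, fun r b hr hb => ⟨r / (16 * G), ?_⟩⟩
  rw [← hK₀] at hb
  obtain ⟨δ, hδ⟩ : ∃ δ, δ = r / (16 * G) := ⟨_, rfl⟩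
  rw [← hδ]
  have b1 : 16 * G ≤ r := by omega
  have b2 : 16 * (G * (M * K)) ≤ r := by omega
  have b3 : 5 * M < r := by omega
  have h1 : 16 * G * δ ≤ r := by rw [hδ]; exact Nat.mul_div_le _ _
  have h2 : r < 16 * G * (δ + 1) := by rw [hδ]; exact Nat.lt_mul_div_succ _ (by positivity)
  have h3 : 1 ≤ δ := by rw [hδ, Nat.le_div_iff_mul_le (by positivity), one_mul]; exact b1
  have h4 : r < 32 * G * δ := by
    calc r < 16 * G * (δ + 1) := h2
      _ ≤ 16 * G * (δ + δ) := Nat.mul_le_mul_left _ (Nat.add_le_add_left h3 _)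
      _ = _ := by ring
  refine ⟨?_, ?_, ?_, b3, ?_⟩
  · calc K * r < K * (32 * G * δ) := Nat.mul_lt_mul_of_pos_left h4 hK0
      _ = n * δ := by rw [hn]; ring
  · calc b ≤ K₀ * r := hb
      _ < K₀ * (32 * G * δ) := Nat.mul_lt_mul_of_pos_left h4 hK₀0
      _ = k₀ * δ := by rw [hk₀]; ring
  · have e1 : 4 * G * (2 * δ + 2 * M * K) = 8 * (G * δ) + 8 * (G * (M * K)) := by ring
    have e2 : 16 * G * δ = 16 * (G * δ) := by ring
    rw [e1]
    rw [e2] at h1
    clear * - h1 b2
    omega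
  · rw [hK, mul_assoc]
    exact Nat.mul_le_mul_left _ hb

theorem main (E : ℕ) (hE : 0 < E) : ∃ d₀ : ℕ,
    ∀ (V C : Type) [Fintype V] [Fintype C] [DecidableEq V] [DecidableEq C]
      (π : C → Equiv.Perm V), (∀ x, Function.Injective fun c => π c x) →
      d₀ ≤ Fintype.card C → ∀ x₁ : V, ∃ cs, Pth π x₁ cs Set.univ Set.univ ∧
        E * Fintype.card C ≤ E * cs.length + Fintype.card C := by
  obtain ⟨G, hG, hdense⟩ := dense E hE
  obtain ⟨Kp, hKp⟩ : ∃ Kp, Kp = 20 * G * E ^ 3 := ⟨_, rfl⟩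
  have hKp0 : 0 < Kp := by rw [hKp]; positivity
  obtain ⟨K, M, n, k₀, m, r₁, hnM, hm, hm0, hpar⟩ := sparse_params E G hE hG Kp hKp0
  obtain ⟨r₀, hr₀⟩ := hdense K M
  refine ⟨E * (r₀ + r₁) + Kp * M + Kp + 2, ?_⟩
  intro V C _ _ _ _ π hL hd x₁
  classical
  obtain ⟨d, hdef⟩ : ∃ d, d = Fintype.card C := ⟨_, rfl⟩
  rw [← hdef] at hd ⊢
  have hd1 : E * (r₀ + r₁) ≤ d := by omega
  have hd2 : Kp * M ≤ d := by omega
  have hd3 : Kp ≤ d := by omega
  have hd4 : 2 ≤ d := by omega
  clear hd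
  have key : ∀ i : ℕ, ∃ cs, Pth π x₁ cs Set.univ Set.univ ∧ (E * d ≤ E * cs.length + d ∨
      (i ≤ cs.length ∧
        Kp * Phi π (x₁ :: tl π x₁ cs).toFinset ≤ 5 * d ^ 2 * (cs.length + 1) ∧
        cs.toFinsetᶜ.card ≤
          10 * deg π (endp π x₁ cs) cs.toFinsetᶜ (x₁ :: tl π x₁ cs).toFinsetᶜ)) := by
    intro i
    induction i with
    | zero =>
      refine ⟨[], Pth.nil _ _ _, Or.inr ⟨le_rfl, ?_, ?_⟩⟩
      · have e1 : Phi π (x₁ :: tl π x₁ []).toFinset ≤ d := by
          unfold Phi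
          have e2 := sum_deg_le (π := π) univ univ (x₁ :: tl π x₁ []).toFinset
          have e3 : (x₁ :: tl π x₁ []).toFinset.card = 1 := by simp
          rw [e3, one_mul, card_univ, ← hdef] at e2
          refine le_trans (sum_le_sum fun w _ => ?_) e2
          have e4 := deg_le_card hL w univ (x₁ :: tl π x₁ []).toFinset
          rw [e3] at e4
          rw [sq]
          exact (Nat.mul_le_mul_right _ e4).trans (by simp)
        calc Kp * Phi π (x₁ :: tl π x₁ []).toFinset ≤ d * d := Nat.mul_le_mul hd3 e1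
          _ ≤ 5 * d ^ 2 * (([] : List C).length + 1) := by simp; nlinarith
      · have e1 := deg_add_compl (π := π) (endp π x₁ []) ([] : List C).toFinsetᶜ
          (x₁ :: tl π x₁ []).toFinset
        have e2 := deg_le_card hL (endp π x₁ []) ([] : List C).toFinsetᶜ
          (x₁ :: tl π x₁ []).toFinset
        have e3 : (x₁ :: tl π x₁ []).toFinset.card = 1 := by simp
        have e4 : ([] : List C).toFinsetᶜ.card = d := by simp [hdef]
        omega
    | succ i ih =>
      obtain ⟨cs, hcs, h⟩ := ih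
      by_cases hdone : E * d ≤ E * cs.length + d
      · exact ⟨cs, hcs, Or.inl hdone⟩
      obtain ⟨hi, hΦ, hdeg⟩ := h.resolve_left hdone
      set P := (x₁ :: tl π x₁ cs).toFinset with hP
      set R := cs.toFinsetᶜ with hR
      set v := endp π x₁ cs with hv
      have hPc : P.card = cs.length + 1 := by
        rw [hP, List.toFinset_card_of_nodup (List.nodup_cons.2 ⟨hcs.hx, hcs.vn⟩)]
        simp
      have hRc : R.card + cs.length = d := by
        rw [hR, ← List.toFinset_card_of_nodup hcs.cn, hdef, add_comm]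
        exact card_add_card_compl _
      have hEr : d < E * R.card := by
        have : E * d = E * R.card + E * cs.length := by rw [← hRc, mul_add]
        omega
      have hr0 : r₀ + r₁ ≤ R.card := (lt_of_mul_lt_mul_left (lt_of_le_of_lt hd1 hEr)
        (Nat.zero_le _)).le
      have hRpos : 0 < R.card := by
        rcases Nat.eq_zero_or_pos R.card with h0 | h0
        · rw [h0] at hEr; omega
        · exact h0
      have hPd : P.card ≤ d := by omega
      have hvP : v ∈ P := by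
        rw [hP, List.mem_toFinset, List.mem_cons]
        exact endp_mem π x₁ cs
      have happ : ∀ q, Pth π v q {w | w ∉ P} {c | c ∈ R} →
          Pth π x₁ (cs ++ q) Set.univ Set.univ := by
        intro q hq
        refine hcs.append hq ?_ ?_ ?_ (fun _ _ => trivial) (fun _ _ => trivial)
          (fun _ _ => trivial) (fun _ _ => trivial)
        · intro c hc h'
          exact mem_compl.1 h' (List.mem_toFinset.2 hc)
        · intro w hw h'
          exact h' (List.mem_toFinset.2 (List.mem_cons_of_mem _ hw))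
        · intro h'
          exact h' (List.mem_toFinset.2 List.mem_cons_self)
      by_cases hA : ∀ W : Finset V, (∀ w ∈ W, w ∉ P ∧ ∃ q, q.length ≤ M ∧
          Pth π v q {w | w ∉ P} {c | c ∈ R} ∧ endp π v q = w) → R.card ≤ 10 * W.card →
          W.card ≤ K * R.card → R.card ^ 2 < 4 * G * ∑ x ∈ W, deg π x R (W ∪ P)ᶜ
      · -- a cheap block
        set B₁ := univ.filter fun u => d ^ 2 < Kp * om π P u with hB₁
        have hB₁c : B₁.card ≤ Kp * d := by
          have e1 : ∑ _u ∈ B₁, d ^ 2 ≤ ∑ u ∈ B₁, Kp * om π P u :=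
            sum_le_sum fun u hu => (mem_filter.1 hu).2.le
          rw [sum_const, smul_eq_mul, ← mul_sum] at e1
          have e2 : ∑ u ∈ B₁, om π P u ≤ ∑ u, om π P u := sum_le_sum_of_subset (subset_univ _)
          have e3 := sum_om_le (π := π) P
          rw [← hdef] at e3
          have e4 : B₁.card * d ^ 2 ≤ (Kp * d) * d ^ 2 := by
            calc B₁.card * d ^ 2 ≤ Kp * (d ^ 2 * d) :=
                e1.trans (Nat.mul_le_mul_left _ (e2.trans (e3.trans (Nat.mul_le_mul_left _ hPd))))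
              _ = _ := by ring
          exact Nat.le_of_mul_le_mul_right e4 (by positivity)
        have hBc : (P ∪ B₁).card ≤ (Kp + 1) * E * R.card := by
          calc (P ∪ B₁).card ≤ d + Kp * d := (card_union_le _ _).trans (Nat.add_le_add hPd hB₁c)
            _ = (Kp + 1) * d := by ring
            _ ≤ (Kp + 1) * (E * R.card) := Nat.mul_le_mul_left _ hEr.le
            _ = _ := by ring
        obtain ⟨δ, p1, p2, p3, p4, p5⟩ := hpar R.card (P ∪ B₁).card (by omega) hBc
        obtain ⟨q, q1, q2, q3, q4, q5⟩ := block hL R P (P ∪ B₁) subset_union_left v hvP hdeg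
          (4 * G) K M δ n k₀ m hnM p1 p2 p3 (by omega) p5 hA
        refine ⟨cs ++ q, happ q q4, Or.inr ⟨by simp; omega, ?_, ?_⟩⟩
        · set Q := (tl π v q).toFinset with hQ
          have hQc : Q.card = q.length := by
            rw [hQ, List.toFinset_card_of_nodup q4.vn]; simp
          have e0 : (x₁ :: tl π x₁ (cs ++ q)).toFinset = P ∪ Q := by
            rw [tl_append, ← List.cons_append, List.toFinset_append]
          rw [e0]
          have e1 := Phi_union hL P Q M (by omega)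
          rw [← hdef, hQc] at e1
          have e2 : ∑ u ∈ Q, Kp * om π P u ≤
              ∑ u ∈ Q, (d ^ 2 + if u ∈ P ∪ B₁ then Kp * d ^ 2 else 0) := by
            refine sum_le_sum fun u _ => ?_
            split_ifs with hu
            · have := om_le (π := π) P u
              rw [← hdef] at this
              exact (Nat.mul_le_mul_left _ this).trans (Nat.le_add_left _ _)
            · by_contra h'
              exact hu (mem_union_right _ (mem_filter.2 ⟨mem_univ _, by omega⟩))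
          rw [← mul_sum, sum_add_distrib, sum_const, smul_eq_mul, ← sum_filter, sum_const,
            smul_eq_mul, filter_mem_eq_inter, hQc] at e2
          have e3 : (Q ∩ (P ∪ B₁)).card * (Kp * d ^ 2) ≤ q.length * d ^ 2 := by
            calc (Q ∩ (P ∪ B₁)).card * (Kp * d ^ 2) ≤ k₀ * (Kp * d ^ 2) :=
                  Nat.mul_le_mul_right _ q3
              _ = (Kp * k₀) * d ^ 2 := by ring
              _ ≤ _ := Nat.mul_le_mul_right _ (hm.trans q1)
          have e4 : Kp * (M * (q.length * d)) ≤ q.length * d ^ 2 := by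
            calc Kp * (M * (q.length * d)) = (Kp * M) * (q.length * d) := by ring
              _ ≤ d * (q.length * d) := Nat.mul_le_mul_right _ hd2
              _ = _ := by ring
          have e5 := Nat.mul_le_mul_left Kp e1
          have e6 : 5 * d ^ 2 * ((cs ++ q).length + 1) =
              5 * d ^ 2 * (cs.length + 1) + 5 * (q.length * d ^ 2) := by
            rw [List.length_append]; ring
          have e7 : Kp * (Phi π P + 2 * ∑ u ∈ Q, om π P u + M * (q.length * d)) =
              Kp * Phi π P + 2 * (Kp * ∑ u ∈ Q, om π P u) + Kp * (M * (q.length * d)) := by ring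
          rw [e6]
          rw [e7] at e5
          clear * - e2 e3 e4 e5 hΦ
          omega
        · have e0 : (x₁ :: tl π x₁ (cs ++ q)).toFinset = P ∪ (tl π v q).toFinset := by
            rw [tl_append, ← List.cons_append, List.toFinset_append]
          have e1 : (cs ++ q).toFinsetᶜ = R \ q.toFinset := by
            ext c
            simp [hR]
          rw [e0, e1, endp_append, ← hv]
          have e2 := deg_le_sdiff (π := π) (endp π v q) R q.toFinset (P ∪ B₁)ᶜ
          have e3 : deg π (endp π v q) (R \ q.toFinset) (P ∪ B₁)ᶜ ≤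
              deg π (endp π v q) (R \ q.toFinset) (P ∪ (tl π v q).toFinset)ᶜ +
              deg π (endp π v q) (R \ q.toFinset) (tl π v q).toFinset := by
            refine deg_le_add _ _ fun w hw => ?_
            simp only [mem_compl, mem_union] at hw ⊢
            tauto
          have e4 : deg π (endp π v q) (R \ q.toFinset) (tl π v q).toFinset ≤ q.length :=
            (deg_le_card hL _ _ _).trans ((List.toFinset_card_le _).trans (by simp))
          have e5 := List.toFinset_card_le q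
          have e6 : (R \ q.toFinset).card ≤ R.card := card_le_card sdiff_subset
          clear * - e2 e3 e4 e5 e6 q2 q5 p4
          omega
      · -- a nearly closed set
        push Not at hA
        obtain ⟨W, hW1, hW2, hW3, hW4⟩ := hA
        have hdefW : G * ∑ x ∈ W, deg π x R Wᶜ ^ 2 ≤ R.card ^ 3 := by
          have e1 : ∑ x ∈ W, deg π x R Wᶜ ^ 2 ≤
              ∑ x ∈ W, (2 * (R.card * deg π x R (W ∪ P)ᶜ) + 2 * deg π x univ P ^ 2) := by
            refine sum_le_sum fun x _ => ?_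
            have f1 : deg π x R Wᶜ ≤ deg π x R (W ∪ P)ᶜ + deg π x R P := by
              refine deg_le_add _ _ fun w hw => ?_
              simp only [mem_compl, mem_union] at hw ⊢
              tauto
            have f2 : deg π x R P ≤ deg π x univ P := deg_mono _ (subset_univ _) Subset.rfl
            have f3 := Nat.mul_le_mul_right (deg π x R (W ∪ P)ᶜ) (deg_le_col (π := π) x R (W ∪ P)ᶜ)
            have f4 := Nat.pow_le_pow_left (f1.trans (Nat.add_le_add_left f2 _)) 2
            have f5 : ∀ a b : ℕ, (a + b) ^ 2 ≤ 2 * (a * a) + 2 * b ^ 2 := fun a b => by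
              nlinarith [sq_nonneg ((a : ℤ) - b)]
            have f6 := f5 (deg π x R (W ∪ P)ᶜ) (deg π x univ P)
            clear * - f3 f4 f6
            omega
          rw [sum_add_distrib, ← mul_sum, ← mul_sum, ← mul_sum] at e1
          have e2 : ∑ x ∈ W, deg π x univ P ^ 2 ≤ Phi π P := sum_le_sum_of_subset (subset_univ _)
          have e3 : 4 * G * Phi π P ≤ R.card ^ 3 := by
            have f1 : (4 * G * Phi π P) * (5 * E ^ 3) ≤ R.card ^ 3 * (5 * E ^ 3) := by
              calc (4 * G * Phi π P) * (5 * E ^ 3) = Kp * Phi π P := by rw [hKp]; ring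
                _ ≤ 5 * d ^ 2 * d := hΦ.trans (Nat.mul_le_mul_left _ (hPc ▸ hPd))
                _ = 5 * d ^ 3 := by ring
                _ ≤ 5 * (E * R.card) ^ 3 := Nat.mul_le_mul_left _ (Nat.pow_le_pow_left hEr.le 3)
                _ = _ := by ring
            exact Nat.le_of_mul_le_mul_right f1 (by positivity)
          have e4 := Nat.mul_le_mul_left R.card hW4
          have e5 := Nat.mul_le_mul_left (2 * G)
            (e1.trans (Nat.add_le_add_left (Nat.mul_le_mul_left 2 e2) _))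
          have e6 : 2 * G * (2 * (R.card * ∑ x ∈ W, deg π x R (W ∪ P)ᶜ) + 2 * Phi π P) =
              R.card * (4 * G * ∑ x ∈ W, deg π x R (W ∪ P)ᶜ) + 4 * G * Phi π P := by ring
          have e7 : R.card * R.card ^ 2 = R.card ^ 3 := by ring
          rw [e6, mul_assoc] at e5
          rw [e7] at e4
          clear * - e3 e4 e5
          omega
        obtain ⟨x₀, hx₀, hpath⟩ := hr₀ V C π hL R W (by omega) hW2 hW3 hdefW
        obtain ⟨hx₀P, q, q1, q2, q3⟩ := hW1 x₀ hx₀
        obtain ⟨cs', c1, c2⟩ := hpath ((tl π v q).toFinset.erase x₀) q.toFinset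
          (card_erase_le.trans ((List.toFinset_card_le _).trans (by simpa using q1)))
          ((List.toFinset_card_le _).trans q1) (notMem_erase _ _)
        have c3 : Pth π (endp π v q) cs' {w | w ∈ W ∧ w ∉ (tl π v q).toFinset}
            {c | c ∈ R ∧ c ∉ q.toFinset} := by
          rw [q3]
          refine ⟨c1.cn, c1.vn, c1.hx, c1.cm, fun w hw => ⟨(c1.vm w hw).1, fun h' => ?_⟩⟩
          refine (c1.vm w hw).2 (mem_erase.2 ⟨?_, h'⟩)
          rintro rfl
          exact c1.hx hw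
        have c4 : Pth π v (q ++ cs') {w | w ∉ P} {c | c ∈ R} := by
          refine q2.append c3 ?_ ?_ ?_ (fun _ h => h) (fun w h => (hW1 w h.1).1) (fun _ h => h)
            (fun _ h => h.1)
          · intro c hc h'
            exact h'.2 (List.mem_toFinset.2 hc)
          · intro w hw h'
            exact h'.2 (List.mem_toFinset.2 hw)
          · intro h'
            exact (hW1 v h'.1).1 hvP
        refine ⟨cs ++ (q ++ cs'), happ _ c4, Or.inl ?_⟩
        have e1 : E * d = E * R.card + E * cs.length := by rw [← hRc, mul_add]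
        have e2 : E * (cs ++ (q ++ cs')).length =
            E * cs.length + E * q.length + E * cs'.length := by
          simp only [List.length_append]; ring
        clear * - e1 e2 c2 hRc
        omega
  obtain ⟨cs, hcs, h⟩ := key d
  refine ⟨cs, hcs, ?_⟩
  rcases h with h | h
  · exact h
  · exact (Nat.mul_le_mul_left E h.1).trans (Nat.le_add_right _ _)

/-- the `i`-th vertex of the walk -/
lemma getElem_cons_tl {V C : Type*} (π : C → Equiv.Perm V) (x : V) (cs : List C) (i : ℕ)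
    (hi : i < cs.length) :
    (x :: tl π x cs)[i + 1]'(by simpa using hi) =
      π cs[i] ((x :: tl π x cs)[i]'(by simp; omega)) := by
  induction cs generalizing x i with
  | nil => simp at hi
  | cons c cs ih =>
    cases i with
    | zero => simp
    | succ i =>
      have := ih (π c x) i (by simpa using hi)
      simpa using this

end Pool.Agent.P.MP_0c87c4_co.Asym
end
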